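import Mathlib

set_option autoImplicit false
set_option linter.unusedSectionVars false
set_option maxHeartbeats 4000000

/-! Gaussian tails and pairs of Gaussian half-spaces. -/

namespace Pool.Agent.L7h51.TR

open MeasureTheory ProbabilityTheory
open scoped RealInnerProductSpace

noncomputable section

/-- The Gaussian tail. -/
def Qt (t : ℝ) : ℝ := (gaussianReal 0 1).real (Set.Ici t)

lemma Qt_nonneg (t : ℝ) : 0 ≤ Qt t := measureReal_nonneg

lemma Qt_le_one (t : ℝ) : Qt t ≤ 1 := measureReal_le_one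

lemma Qt_eq (t : ℝ) : Qt t = ∫ x in Set.Ici t, gaussianPDFReal 0 1 x := by
  unfold Qt
  rw [measureReal_def, gaussianReal_apply_eq_integral 0 (by norm_num), ENNReal.toReal_ofReal]
  exact integral_nonneg fun x => gaussianPDFReal_nonneg 0 1 x

lemma pdf_eq (x : ℝ) : gaussianPDFReal 0 1 x = (Real.sqrt (2 * Real.pi))⁻¹ * Real.exp (-x ^ 2 / 2) := by
  rw [gaussianPDFReal_def]
  simp

/-- lower bound of the tail by a rectangle -/
lemma Qt_lower (t s : ℝ) (ht : 0 ≤ t) (hs : 0 ≤ s) :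
    s * ((Real.sqrt (2 * Real.pi))⁻¹ * Real.exp (-(t + s) ^ 2 / 2)) ≤ Qt t := by
  rw [Qt_eq]
  have h1 : ∫ x in Set.Icc t (t + s), gaussianPDFReal 0 1 x ≤ ∫ x in Set.Ici t, gaussianPDFReal 0 1 x := by
    apply setIntegral_mono_set
    · exact (integrable_gaussianPDFReal 0 1).integrableOn
    · exact ae_of_all _ fun x => gaussianPDFReal_nonneg 0 1 x
    · exact (Set.Icc_subset_Ici_self).eventuallyLE
  refine le_trans ?_ h1
  have h2 : s * ((Real.sqrt (2 * Real.pi))⁻¹ * Real.exp (-(t + s) ^ 2 / 2)) =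
      ∫ x in Set.Icc t (t + s), ((Real.sqrt (2 * Real.pi))⁻¹ * Real.exp (-(t + s) ^ 2 / 2)) := by
    rw [setIntegral_const, smul_eq_mul, measureReal_def, Real.volume_Icc, ENNReal.toReal_ofReal
      (by linarith)]
    ring
  rw [h2]
  apply setIntegral_mono_on
  · exact integrableOn_const (by rw [Real.volume_Icc]; exact ENNReal.ofReal_ne_top)
  · exact (integrable_gaussianPDFReal 0 1).integrableOn
  · exact measurableSet_Icc
  · intro x hx
    rw [pdf_eq]
    apply mul_le_mul_of_nonneg_left _ (by positivity)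
    apply Real.exp_le_exp.2
    have h3 : x ^ 2 ≤ (t + s) ^ 2 := pow_le_pow_left₀ (ht.trans hx.1) hx.2 2
    linarith

lemma sqrt_two_pi_lt : Real.sqrt (2 * Real.pi) < 2.51 := by
  rw [Real.sqrt_lt' (by norm_num)]
  have := Real.pi_lt_d4
  nlinarith

lemma sqrt_two_pi_pos : 0 < Real.sqrt (2 * Real.pi) := Real.sqrt_pos.2 (by positivity)

/-- `Q(u) ≥ exp(-u²)/7` -/
lemma Qt_lower1 (u : ℝ) (hu : 0 ≤ u) : Real.exp (-u ^ 2) / 7 ≤ Qt u := by
  refine le_trans ?_ (Qt_lower u 1 hu zero_le_one)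
  have h1 : Real.exp (-u ^ 2) * Real.exp (-1) ≤ Real.exp (-(u + 1) ^ 2 / 2) := by
    rw [← Real.exp_add]
    apply Real.exp_le_exp.2
    nlinarith [sq_nonneg (u - 1)]
  have h2 : 1 / 7 ≤ (Real.sqrt (2 * Real.pi))⁻¹ * Real.exp (-1) := by
    have h3 : Real.exp 1 < 2.7182818286 := Real.exp_one_lt_d9
    have h4 := sqrt_two_pi_lt
    rw [Real.exp_neg, ← mul_inv, one_div]
    apply inv_anti₀
    · have := sqrt_two_pi_pos; positivity
    · have h5 := sqrt_two_pi_pos
      nlinarith [Real.exp_pos 1]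
  have h5 := Real.exp_pos (-u ^ 2)
  have h6 : 0 < (Real.sqrt (2 * Real.pi))⁻¹ := inv_pos.2 sqrt_two_pi_pos
  calc Real.exp (-u ^ 2) / 7 = Real.exp (-u ^ 2) * (1 / 7) := by ring
    _ ≤ Real.exp (-u ^ 2) * ((Real.sqrt (2 * Real.pi))⁻¹ * Real.exp (-1)) :=
        mul_le_mul_of_nonneg_left h2 h5.le
    _ = (Real.sqrt (2 * Real.pi))⁻¹ * (Real.exp (-u ^ 2) * Real.exp (-1)) := by ring
    _ ≤ (Real.sqrt (2 * Real.pi))⁻¹ * Real.exp (-(u + 1) ^ 2 / 2) :=
        mul_le_mul_of_nonneg_left h1 h6.le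
    _ = _ := by ring

/-- `Q(t) ≥ exp(-t²/2)/(12 t)` for `t ≥ 1` -/
lemma Qt_lower2 (t : ℝ) (ht : 1 ≤ t) : Real.exp (-t ^ 2 / 2) / (12 * t) ≤ Qt t := by
  have ht0 : 0 < t := by linarith
  refine le_trans ?_ (Qt_lower t (1 / t) ht0.le (by positivity))
  have h1 : Real.exp (-t ^ 2 / 2) * Real.exp (-(3 / 2)) ≤ Real.exp (-(t + 1 / t) ^ 2 / 2) := by
    rw [← Real.exp_add]
    apply Real.exp_le_exp.2
    have h2 : (t + 1 / t) ^ 2 = t ^ 2 + 2 + (1 / t) ^ 2 := by field_simp; ring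
    have h3 : (1 / t) ^ 2 ≤ 1 := by
      have : 1 / t ≤ 1 := by rw [div_le_one ht0]; exact ht
      have h0 : 0 ≤ 1 / t := by positivity
      nlinarith
    rw [h2]
    linarith
  have h2 : 1 / 12 ≤ (Real.sqrt (2 * Real.pi))⁻¹ * Real.exp (-(3 / 2)) := by
    have h3 : Real.exp 1 < 2.7182818286 := Real.exp_one_lt_d9
    have h4 := sqrt_two_pi_lt
    rw [Real.exp_neg, ← mul_inv, one_div]
    apply inv_anti₀
    · have := sqrt_two_pi_pos; positivity
    · have h5 := sqrt_two_pi_pos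
      have h6 : Real.exp (3 / 2) < 4.49 := by
        have h7 : Real.exp (3 / 2) ^ 2 = Real.exp 1 ^ 3 := by
          rw [← Real.exp_nat_mul, ← Real.exp_nat_mul]; norm_num
        have h8 : Real.exp 1 ^ 3 < 2.7182818286 ^ 3 := pow_lt_pow_left₀ h3 (Real.exp_pos 1).le (by norm_num)
        have h9 : Real.exp (3 / 2) ^ 2 < 4.49 ^ 2 := by
          rw [h7]; refine h8.trans ?_; norm_num
        exact lt_of_pow_lt_pow_left₀ 2 (by norm_num) h9
      nlinarith [Real.exp_pos (3 / 2 : ℝ)]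
  have h6 : 0 < (Real.sqrt (2 * Real.pi))⁻¹ := inv_pos.2 sqrt_two_pi_pos
  have h7 := Real.exp_pos (-t ^ 2 / 2)
  calc Real.exp (-t ^ 2 / 2) / (12 * t) = (1 / t) * (Real.exp (-t ^ 2 / 2) * (1 / 12)) := by
        field_simp
    _ ≤ (1 / t) * (Real.exp (-t ^ 2 / 2) * ((Real.sqrt (2 * Real.pi))⁻¹ * Real.exp (-(3 / 2)))) := by
        apply mul_le_mul_of_nonneg_left _ (by positivity)
        exact mul_le_mul_of_nonneg_left h2 h7.le
    _ = (1 / t) * ((Real.sqrt (2 * Real.pi))⁻¹ * (Real.exp (-t ^ 2 / 2) * Real.exp (-(3 / 2)))) := by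
        ring
    _ ≤ (1 / t) * ((Real.sqrt (2 * Real.pi))⁻¹ * Real.exp (-(t + 1 / t) ^ 2 / 2)) := by
        apply mul_le_mul_of_nonneg_left _ (by positivity)
        exact mul_le_mul_of_nonneg_left h1 h6.le

lemma Qt_pos (t : ℝ) (ht : 0 ≤ t) : 0 < Qt t :=
  lt_of_lt_of_le (by positivity) (Qt_lower1 t ht)

variable {E : Type*} [NormedAddCommGroup E] [InnerProductSpace ℝ E] [FiniteDimensional ℝ E]
  [MeasurableSpace E] [BorelSpace E]

lemma map_inner (v : E) :
    (stdGaussian E).map (fun g => ⟪v, g⟫) = gaussianReal 0 (‖v‖ ^ 2).toNNReal := by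
  have h := IsGaussian.map_eq_gaussianReal (μ := stdGaussian E) (innerSL ℝ v)
  rw [integral_strongDual_stdGaussian, variance_dual_stdGaussian, innerSL_apply_norm] at h
  exact h

/-- the half-space of `v` at height `t` -/
def Hs (v : E) (t : ℝ) : Set E := {g | t ≤ ⟪v, g⟫}

lemma measurableSet_Hs (v : E) (t : ℝ) : MeasurableSet (Hs v t) := by
  unfold Hs
  exact measurableSet_le measurable_const (by fun_prop)

lemma Hs_unit (v : E) (hv : ‖v‖ = 1) (t : ℝ) : (stdGaussian E).real (Hs v t) = Qt t := by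
  have h := map_inner v
  rw [hv, one_pow, Real.toNNReal_one] at h
  unfold Qt
  rw [← h, measureReal_def, measureReal_def, Measure.map_apply (by fun_prop) measurableSet_Ici]
  rfl

lemma indep_inner (v w : E) (h : ⟪v, w⟫ = 0) :
    IndepFun (fun g : E => ⟪v, g⟫) (fun g : E => ⟪w, g⟫) (stdGaussian E) := by
  apply HasGaussianLaw.indepFun_of_covariance_eq_zero
  · have h1 : HasGaussianLaw (fun g : E => ((innerSL ℝ v).prod (innerSL ℝ w)) g) (stdGaussian E) :=
      (IsGaussian.hasGaussianLaw_id (μ := stdGaussian E)).map_fun ((innerSL ℝ v).prod (innerSL ℝ w))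
    exact h1
  · have h1 := covarianceBilin_stdGaussian (E := E)
    have h2 : covarianceBilin (stdGaussian E) v w = 0 := by
      rw [h1]; exact h
    rw [covarianceBilin_apply_eq_cov IsGaussian.memLp_two_id] at h2
    exact h2

lemma pair_lower (v w : E) (hv : ‖v‖ = 1) (hw : ‖w‖ = 1) (hρ : 0 ≤ ⟪v, w⟫) (t : ℝ) (ht : 0 ≤ t) :
    Qt t * Qt (t * Real.sqrt ((1 - ⟪v, w⟫) / (1 + ⟪v, w⟫))) ≤
      (stdGaussian E).real (Hs v t ∩ Hs w t) := by
  set ρ := ⟪v, w⟫ with hρd
  have hρ1 : ρ ≤ 1 := by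
    have := real_inner_le_norm v w
    rw [hv, hw] at this
    linarith
  rcases eq_or_lt_of_le hρ1 with h1 | h1
  · have hvw : v = w := (inner_eq_one_iff_of_norm_eq_one hv hw).1 h1
    rw [← hvw, Set.inter_self, Hs_unit v hv]
    exact mul_le_of_le_one_right (Qt_nonneg t) (Qt_le_one _)
  · have hσ : 0 < 1 - ρ ^ 2 := by nlinarith
    set σ := Real.sqrt (1 - ρ ^ 2) with hσd
    have hσ0 : 0 < σ := Real.sqrt_pos.2 hσ
    have hσ2 : σ ^ 2 = 1 - ρ ^ 2 := Real.sq_sqrt hσ.le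
    set z : E := σ⁻¹ • (w - ρ • v) with hz
    have hvv : ⟪v, v⟫ = 1 := by rw [real_inner_self_eq_norm_sq, hv]; norm_num
    have hww : ⟪w, w⟫ = 1 := by rw [real_inner_self_eq_norm_sq, hw]; norm_num
    have hwv : ⟪w, v⟫ = ρ := by rw [real_inner_comm]
    have hvz : ⟪v, z⟫ = 0 := by
      rw [hz, real_inner_smul_right, inner_sub_right, real_inner_smul_right, hvv, ← hρd]
      ring
    have hzz : ‖z‖ = 1 := by
      have h2 : ‖z‖ ^ 2 = 1 := by
        rw [← real_inner_self_eq_norm_sq, hz, real_inner_smul_right, real_inner_smul_left,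
          inner_sub_right, inner_sub_left, inner_sub_left, real_inner_smul_right,
          real_inner_smul_left, real_inner_smul_left, real_inner_smul_right, hvv, hww, hwv, ← hρd]
        field_simp
        rw [hσ2]
        ring
      nlinarith [norm_nonneg z]
    have hind := indep_inner v z hvz
    have h3 : (stdGaussian E).real (Hs v t ∩ Hs z (t * Real.sqrt ((1 - ρ) / (1 + ρ)))) =
        Qt t * Qt (t * Real.sqrt ((1 - ρ) / (1 + ρ))) := by
      have h4 := hind.measure_inter_preimage_eq_mul (Set.Ici t)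
        (Set.Ici (t * Real.sqrt ((1 - ρ) / (1 + ρ)))) measurableSet_Ici measurableSet_Ici
      have h5 := congrArg ENNReal.toReal h4
      rw [ENNReal.toReal_mul] at h5
      rw [← Hs_unit v hv, ← Hs_unit z hzz]
      exact h5
    rw [← h3]
    apply measureReal_mono _ (measure_ne_top _ _)
    rintro g ⟨hg1, hg2⟩
    refine ⟨hg1, ?_⟩
    unfold Hs at hg1 hg2 ⊢
    simp only [Set.mem_setOf_eq] at hg1 hg2 ⊢
    have h6 : ⟪w, g⟫ = ρ * ⟪v, g⟫ + σ * ⟪z, g⟫ := by
      rw [hz, real_inner_smul_left, inner_sub_left, real_inner_smul_left]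
      field_simp
      ring
    have h7 : σ * Real.sqrt ((1 - ρ) / (1 + ρ)) = 1 - ρ := by
      rw [hσd, ← Real.sqrt_mul hσ.le]
      have : (1 - ρ ^ 2) * ((1 - ρ) / (1 + ρ)) = (1 - ρ) ^ 2 := by
        have : (1 + ρ) ≠ 0 := by linarith
        field_simp
        ring
      rw [this, Real.sqrt_sq (by linarith)]
    rw [h6]
    have h8 : ρ * t ≤ ρ * ⟪v, g⟫ := mul_le_mul_of_nonneg_left hg1 hρ
    have h9 : σ * (t * Real.sqrt ((1 - ρ) / (1 + ρ))) ≤ σ * ⟪z, g⟫ :=
      mul_le_mul_of_nonneg_left hg2 hσ0.le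
    have h10 : σ * (t * Real.sqrt ((1 - ρ) / (1 + ρ))) = t * (1 - ρ) := by
      calc σ * (t * Real.sqrt ((1 - ρ) / (1 + ρ))) = t * (σ * Real.sqrt ((1 - ρ) / (1 + ρ))) := by ring
        _ = t * (1 - ρ) := by rw [h7]
    linarith

lemma chernoff (s : E) (a lam : ℝ) (hlam : 0 ≤ lam) :
    (stdGaussian E).real (Hs s a) ≤ Real.exp (lam ^ 2 * ‖s‖ ^ 2 / 2 - lam * a) := by
  have h := map_inner s
  have hint : Integrable (fun g : E => Real.exp (lam * ⟪s, g⟫)) (stdGaussian E) := by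
    have h1 : Integrable (fun x : ℝ => Real.exp (lam * x)) ((stdGaussian E).map (fun g => ⟪s, g⟫)) := by
      rw [h]
      exact integrable_exp_mul_gaussianReal lam
    exact h1.comp_measurable (by fun_prop)
  have h2 := measure_ge_le_exp_mul_mgf (μ := stdGaussian E) (X := fun g => ⟪s, g⟫) a hlam hint
  rw [mgf_gaussianReal h, ← Real.exp_add] at h2
  refine h2.trans (le_of_eq ?_)
  congr 1
  rw [Real.coe_toNNReal _ (by positivity)]
  ring

lemma pair_upper (v w : E) (hv : ‖v‖ = 1) (hw : ‖w‖ = 1) (hρ : ⟪v, w⟫ ≤ 1 / 4) (t : ℝ)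
    (ht : 0 ≤ t) :
    (stdGaussian E).real (Hs v t ∩ Hs w t) ≤ Real.exp (-(4 / 5) * t ^ 2) := by
  have h1 : Hs v t ∩ Hs w t ⊆ Hs (v + w) (2 * t) := by
    rintro g ⟨hg1, hg2⟩
    unfold Hs at hg1 hg2 ⊢
    simp only [Set.mem_setOf_eq] at hg1 hg2 ⊢
    rw [inner_add_left]
    linarith
  refine (measureReal_mono h1 (measure_ne_top _ _)).trans ?_
  refine (chernoff (v + w) (2 * t) (4 / 5 * t) (by positivity)).trans ?_
  apply Real.exp_le_exp.2
  have h2 : ‖v + w‖ ^ 2 ≤ 5 / 2 := by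
    rw [norm_add_sq_real, hv, hw]
    linarith
  nlinarith [mul_le_mul_of_nonneg_left h2 (sq_nonneg t)]

end

end Pool.Agent.L7h51.TR
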