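import Pool.Agent.L7h51.TR.Round

set_option autoImplicit false
set_option linter.unusedSectionVars false
set_option maxHeartbeats 4000000

/-! The random set and its moments. -/

namespace Pool.Agent.L7h51.TR

open MeasureTheory ProbabilityTheory Finset
open scoped RealInnerProductSpace Classical

noncomputable section

variable {E : Type*} [NormedAddCommGroup E] [InnerProductSpace ℝ E] [FiniteDimensional ℝ E]
  [MeasurableSpace E] [BorelSpace E]

/-- the probability space: a Gaussian vector and a threshold -/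
def prb (E : Type*) [NormedAddCommGroup E] [InnerProductSpace ℝ E] [FiniteDimensional ℝ E]
    [MeasurableSpace E] [BorelSpace E] : Measure (E × ℝ) :=
  (stdGaussian E).prod (volume.restrict (Set.Ico (0 : ℝ) 1))

instance : IsFiniteMeasure (prb E) := by
  unfold prb; infer_instance

/-- the event that `x` belongs to the random set -/
def Ev (v : E) (t : ℝ) : Set (E × ℝ) := Gs v t ×ˢ Set.Iio (‖v‖ ^ 2)

lemma measurableSet_Ev (v : E) (t : ℝ) : MeasurableSet (Ev v t) :=
  (measurableSet_Gs v t).prod measurableSet_Iio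

lemma prb_inter (v w : E) (hv : ‖v‖ ^ 2 ≤ 1) (t : ℝ) :
    (prb E).real (Ev v t ∩ Ev w t) =
      (stdGaussian E).real (Gs v t ∩ Gs w t) * min (‖v‖ ^ 2) (‖w‖ ^ 2) := by
  have h1 : Ev v t ∩ Ev w t = (Gs v t ∩ Gs w t) ×ˢ (Set.Iio (min (‖v‖ ^ 2) (‖w‖ ^ 2))) := by
    unfold Ev
    rw [Set.prod_inter_prod, Set.Iio_inter_Iio]
  unfold prb
  rw [h1, measureReal_def, Measure.prod_prod, ENNReal.toReal_mul, ← measureReal_def]
  congr 1
  rw [Measure.restrict_apply measurableSet_Iio]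
  have h2 : Set.Iio (min (‖v‖ ^ 2) (‖w‖ ^ 2)) ∩ Set.Ico (0 : ℝ) 1 = Set.Ico 0 (min (‖v‖ ^ 2) (‖w‖ ^ 2)) := by
    ext s
    simp only [Set.mem_inter_iff, Set.mem_Iio, Set.mem_Ico]
    constructor
    · rintro ⟨h1, h2, _⟩; exact ⟨h2, h1⟩
    · rintro ⟨h1, h2⟩
      exact ⟨h2, h1, lt_of_lt_of_le h2 ((min_le_left _ _).trans hv)⟩
  rw [h2, Real.volume_Ico, sub_zero, ENNReal.toReal_ofReal]
  exact le_min (by positivity) (by positivity)

variable {V : Type} [Fintype V]

/-- the random set -/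
def rset (v : V → E) (t : ℝ) (ω : E × ℝ) : Finset V := univ.filter fun x => ω ∈ Ev (v x) t

/-- indicator of a pair -/
def ind (v : V → E) (t : ℝ) (x y : V) : E × ℝ → ℝ :=
  Set.indicator (Ev (v x) t ∩ Ev (v y) t) (fun _ => (1 : ℝ))

lemma ind_eq (v : V → E) (t : ℝ) (x y : V) (ω : E × ℝ) :
    ind v t x y ω = if x ∈ rset v t ω ∧ y ∈ rset v t ω then 1 else 0 := by
  unfold ind rset
  by_cases h : ω ∈ Ev (v x) t ∩ Ev (v y) t
  · rw [Set.indicator_of_mem h, if_pos]
    simpa using h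
  · rw [Set.indicator_of_notMem h, if_neg]
    simpa using h

lemma ind_integrable (v : V → E) (t : ℝ) (x y : V) : Integrable (ind v t x y) (prb E) := by
  unfold ind
  exact (integrable_const (1 : ℝ)).indicator ((measurableSet_Ev _ _).inter (measurableSet_Ev _ _))

lemma ind_integral (v : V → E) (t : ℝ) (x y : V) (hx : ‖v x‖ ^ 2 ≤ 1) :
    ∫ ω, ind v t x y ω ∂(prb E) =
      (stdGaussian E).real (Gs (v x) t ∩ Gs (v y) t) * min (‖v x‖ ^ 2) (‖v y‖ ^ 2) := by
  unfold ind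
  rw [integral_indicator ((measurableSet_Ev _ _).inter (measurableSet_Ev _ _)), setIntegral_const,
    smul_eq_mul, mul_one, prb_inter _ _ hx]

/-- the functional -/
def Zf (v : V → E) (t : ℝ) (P : V → V → ℝ) (r l : ℝ) (ω : E × ℝ) : ℝ :=
  ∑ x, ∑ y, P x y * ind v t x y ω - r * ∑ x, ind v t x x ω - l * ∑ x, ∑ y, ind v t x y ω

lemma Zf_eq (v : V → E) (t : ℝ) (P : V → V → ℝ) (r l : ℝ) (ω : E × ℝ) :
    Zf v t P r l ω = (∑ x ∈ rset v t ω, ∑ y ∈ rset v t ω, P x y) - r * (rset v t ω).card -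
      l * (rset v t ω).card ^ 2 := by
  unfold Zf
  have h1 : ∑ x, ∑ y, P x y * ind v t x y ω = ∑ x ∈ rset v t ω, ∑ y ∈ rset v t ω, P x y := by
    rw [← Finset.sum_subset (Finset.subset_univ (rset v t ω))]
    · refine Finset.sum_congr rfl fun x hx => ?_
      rw [← Finset.sum_subset (Finset.subset_univ (rset v t ω))]
      · refine Finset.sum_congr rfl fun y hy => ?_
        rw [ind_eq, if_pos ⟨hx, hy⟩, mul_one]
      · intro y _ hy
        rw [ind_eq, if_neg (fun h => hy h.2), mul_zero]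
    · intro x _ hx
      refine Finset.sum_eq_zero fun y _ => ?_
      rw [ind_eq, if_neg (fun h => hx h.1), mul_zero]
  have h2 : ∑ x, ind v t x x ω = (rset v t ω).card := by
    rw [← Finset.sum_subset (Finset.subset_univ (rset v t ω))]
    · have : ∀ x ∈ rset v t ω, ind v t x x ω = 1 := by
        intro x hx
        rw [ind_eq, if_pos ⟨hx, hx⟩]
      rw [Finset.sum_congr rfl this]; simp
    · intro x _ hx
      rw [ind_eq, if_neg (fun h => hx h.1)]
  have h3 : ∑ x, ∑ y, ind v t x y ω = (rset v t ω).card ^ 2 := by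
    rw [← Finset.sum_subset (Finset.subset_univ (rset v t ω))]
    · have : ∀ x ∈ rset v t ω, ∑ y, ind v t x y ω = (rset v t ω).card := by
        intro x hx
        rw [← Finset.sum_subset (Finset.subset_univ (rset v t ω))]
        · have : ∀ y ∈ rset v t ω, ind v t x y ω = 1 := by
            intro y hy
            rw [ind_eq, if_pos ⟨hx, hy⟩]
          rw [Finset.sum_congr rfl this]; simp
        · intro y _ hy
          rw [ind_eq, if_neg (fun h => hy h.2)]
      rw [Finset.sum_congr rfl this, Finset.sum_const, nsmul_eq_mul, pow_two]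
    · intro x _ hx
      refine Finset.sum_eq_zero fun y _ => ?_
      rw [ind_eq, if_neg (fun h => hx h.1)]
  rw [h1, h2, h3]

lemma Zf_integral (v : V → E) (hv : ∀ x, ‖v x‖ ^ 2 ≤ 1) (t : ℝ) (P : V → V → ℝ) (r l : ℝ) :
    ∫ ω, Zf v t P r l ω ∂(prb E) =
      ∑ x, ∑ y, P x y * ((stdGaussian E).real (Gs (v x) t ∩ Gs (v y) t) * min (‖v x‖ ^ 2) (‖v y‖ ^ 2))
      - r * ∑ x, ((stdGaussian E).real (Gs (v x) t ∩ Gs (v x) t) * min (‖v x‖ ^ 2) (‖v x‖ ^ 2))
      - l * ∑ x, ∑ y, ((stdGaussian E).real (Gs (v x) t ∩ Gs (v y) t) *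
        min (‖v x‖ ^ 2) (‖v y‖ ^ 2)) := by
  have i1 : Integrable (fun ω => ∑ x, ∑ y, P x y * ind v t x y ω) (prb E) :=
    integrable_finsetSum _ fun x _ => integrable_finsetSum _ fun y _ =>
      (ind_integrable v t x y).const_mul _
  have i2 : Integrable (fun ω => ∑ x, ind v t x x ω) (prb E) :=
    integrable_finsetSum _ fun x _ => ind_integrable v t x x
  have i3 : Integrable (fun ω => ∑ x, ∑ y, ind v t x y ω) (prb E) :=
    integrable_finsetSum _ fun x _ => integrable_finsetSum _ fun y _ => ind_integrable v t x y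
  have i4 : Integrable (fun ω => ∑ x, ∑ y, P x y * ind v t x y ω - r * ∑ x, ind v t x x ω)
    (prb E) := i1.sub (i2.const_mul r)
  unfold Zf
  rw [integral_sub i4 (i3.const_mul l), integral_sub i1 (i2.const_mul r),
    integral_const_mul, integral_const_mul]
  congr 1
  · congr 1
    · rw [integral_finsetSum _ fun x _ => integrable_finsetSum _ fun y _ =>
        (ind_integrable v t x y).const_mul _]
      refine Finset.sum_congr rfl fun x _ => ?_
      rw [integral_finsetSum _ fun y _ => (ind_integrable v t x y).const_mul _]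
      refine Finset.sum_congr rfl fun y _ => ?_
      rw [integral_const_mul, ind_integral v t x y (hv x)]
    · rw [integral_finsetSum _ fun x _ => ind_integrable v t x x]
      congr 1
      refine Finset.sum_congr rfl fun x _ => ?_
      rw [ind_integral v t x x (hv x)]
  · rw [integral_finsetSum _ fun x _ => integrable_finsetSum _ fun y _ => ind_integrable v t x y]
    congr 1
    refine Finset.sum_congr rfl fun x _ => ?_
    rw [integral_finsetSum _ fun y _ => ind_integrable v t x y]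
    refine Finset.sum_congr rfl fun y _ => ?_
    rw [ind_integral v t x y (hv x)]

/-- the sum over the good pairs -/
lemma good_weight (v : V → E) (P : V → V → ℝ) (hP : ∀ x y, 0 ≤ P x y)
    (hsym : ∀ x y, P x y = P y x) (hrow : ∀ x, ∑ y, P x y = 1) (K ε : ℝ) (hε : 0 ≤ ε)
    (hK : ∑ x, ‖v x‖ ^ 2 = K)
    (hE : (1 - ε) * K ≤ ∑ x, ∑ y, P x y * ⟪v x, v y⟫) :
    K ≤ ∑ x, ∑ y, P x y * (if (1 - 2 * ε) * ((‖v x‖ ^ 2 + ‖v y‖ ^ 2) / 2) ≤ ⟪v x, v y⟫ then
      ‖v x‖ ^ 2 + ‖v y‖ ^ 2 else 0) := by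
  have htot : ∑ x, ∑ y, P x y * (‖v x‖ ^ 2 + ‖v y‖ ^ 2) = 2 * K := by
    have h1 : ∑ x, ∑ y, P x y * ‖v x‖ ^ 2 = K := by
      rw [← hK]
      refine Finset.sum_congr rfl fun x _ => ?_
      rw [← Finset.sum_mul, hrow, one_mul]
    have h2 : ∑ x, ∑ y, P x y * ‖v y‖ ^ 2 = K := by
      rw [Finset.sum_comm, ← hK]
      refine Finset.sum_congr rfl fun y _ => ?_
      rw [← Finset.sum_mul]
      have : ∑ x, P x y = 1 := by
        rw [← hrow y]
        exact Finset.sum_congr rfl fun x _ => hsym x y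
      rw [this, one_mul]
    simp_rw [mul_add, Finset.sum_add_distrib]
    rw [h1, h2]; ring
  -- the defect
  have hD : ∀ x y, 0 ≤ (‖v x‖ ^ 2 + ‖v y‖ ^ 2) / 2 - ⟪v x, v y⟫ := by
    intro x y
    have := real_inner_le_norm (v x) (v y)
    nlinarith [sq_nonneg (‖v x‖ - ‖v y‖)]
  have hDs : ∑ x, ∑ y, P x y * ((‖v x‖ ^ 2 + ‖v y‖ ^ 2) / 2 - ⟪v x, v y⟫) ≤ ε * K := by
    have h1 : ∑ x, ∑ y, P x y * ((‖v x‖ ^ 2 + ‖v y‖ ^ 2) / 2 - ⟪v x, v y⟫) =
        (∑ x, ∑ y, P x y * (‖v x‖ ^ 2 + ‖v y‖ ^ 2)) / 2 - ∑ x, ∑ y, P x y * ⟪v x, v y⟫ := by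
      rw [Finset.sum_div, ← Finset.sum_sub_distrib]
      refine Finset.sum_congr rfl fun x _ => ?_
      rw [Finset.sum_div, ← Finset.sum_sub_distrib]
      refine Finset.sum_congr rfl fun y _ => ?_
      ring
    rw [h1, htot]
    linarith
  rcases eq_or_lt_of_le hε with h0 | h0
  · -- ε = 0
    subst h0
    have hz : ∀ x y, P x y * ((‖v x‖ ^ 2 + ‖v y‖ ^ 2) / 2 - ⟪v x, v y⟫) = 0 := by
      have h1 : ∀ x, 0 ≤ ∑ y, P x y * ((‖v x‖ ^ 2 + ‖v y‖ ^ 2) / 2 - ⟪v x, v y⟫) := fun x =>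
        Finset.sum_nonneg fun y _ => mul_nonneg (hP x y) (hD x y)
      have h2 : ∑ x, ∑ y, P x y * ((‖v x‖ ^ 2 + ‖v y‖ ^ 2) / 2 - ⟪v x, v y⟫) = 0 :=
        le_antisymm (by simpa using hDs) (Finset.sum_nonneg fun x _ => h1 x)
      intro x y
      have h3 := (Finset.sum_eq_zero_iff_of_nonneg fun x _ => h1 x).1 h2 x (Finset.mem_univ x)
      exact (Finset.sum_eq_zero_iff_of_nonneg fun y _ => mul_nonneg (hP x y) (hD x y)).1 h3 y
        (Finset.mem_univ y)
    have hK0 : 0 ≤ K := by rw [← hK]; exact Finset.sum_nonneg fun x _ => by positivity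
    refine le_trans (by linarith : K ≤ 2 * K) ?_
    rw [← htot]
    refine Finset.sum_le_sum fun x _ => Finset.sum_le_sum fun y _ => ?_
    split_ifs with h
    · exact le_refl _
    · rcases mul_eq_zero.1 (hz x y) with h1 | h1
      · rw [h1]; simp
      · exfalso; apply h; linarith
  · have hpt : ∀ x y, P x y * (‖v x‖ ^ 2 + ‖v y‖ ^ 2) -
        P x y * ((‖v x‖ ^ 2 + ‖v y‖ ^ 2) / 2 - ⟪v x, v y⟫) / ε ≤
        P x y * (if (1 - 2 * ε) * ((‖v x‖ ^ 2 + ‖v y‖ ^ 2) / 2) ≤ ⟪v x, v y⟫ then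
      ‖v x‖ ^ 2 + ‖v y‖ ^ 2 else 0) := by
      intro x y
      split_ifs with h
      · have : 0 ≤ P x y * ((‖v x‖ ^ 2 + ‖v y‖ ^ 2) / 2 - ⟪v x, v y⟫) / ε :=
          div_nonneg (mul_nonneg (hP x y) (hD x y)) hε
        linarith
      · push Not at h
        rw [mul_zero, sub_nonpos, le_div_iff₀ h0]
        have h1 : (‖v x‖ ^ 2 + ‖v y‖ ^ 2) * ε ≤ (‖v x‖ ^ 2 + ‖v y‖ ^ 2) / 2 - ⟪v x, v y⟫ := by
          linarith
        have h2 := mul_le_mul_of_nonneg_left h1 (hP x y)
        linarith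
    have h1 : ∑ x, ∑ y, (P x y * (‖v x‖ ^ 2 + ‖v y‖ ^ 2) -
        P x y * ((‖v x‖ ^ 2 + ‖v y‖ ^ 2) / 2 - ⟪v x, v y⟫) / ε) =
        2 * K - (∑ x, ∑ y, P x y * ((‖v x‖ ^ 2 + ‖v y‖ ^ 2) / 2 - ⟪v x, v y⟫)) / ε := by
      rw [← htot, Finset.sum_div, ← Finset.sum_sub_distrib]
      refine Finset.sum_congr rfl fun x _ => ?_
      rw [Finset.sum_div, ← Finset.sum_sub_distrib]
    have h2 : (∑ x, ∑ y, P x y * ((‖v x‖ ^ 2 + ‖v y‖ ^ 2) / 2 - ⟪v x, v y⟫)) / ε ≤ K := by
      rw [div_le_iff₀ h0]; linarith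
    calc K ≤ 2 * K - (∑ x, ∑ y, P x y * ((‖v x‖ ^ 2 + ‖v y‖ ^ 2) / 2 - ⟪v x, v y⟫)) / ε := by
          linarith
      _ = _ := h1.symm
      _ ≤ _ := Finset.sum_le_sum fun x _ => Finset.sum_le_sum fun y _ => hpt x y

/-- **Rounding.** -/
theorem round (v : V → E) (P : V → V → ℝ) (hP : ∀ x y, 0 ≤ P x y)
    (hsym : ∀ x y, P x y = P y x) (hrow : ∀ x, ∑ y, P x y = 1) (K ε : ℝ) (hε : 0 ≤ ε)
    (hε8 : ε ≤ 1 / 8) (hK2 : 2 ≤ K)
    (hK : ∑ x, ‖v x‖ ^ 2 = K) (hv : ∀ x, ‖v x‖ ^ 2 ≤ 1)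
    (hiso : ∀ x, ∑ y, ⟪v x, v y⟫ ^ 2 ≤ ‖v x‖ ^ 2)
    (hE : (1 - ε) * K ≤ ∑ x, ∑ y, P x y * ⟪v x, v y⟫) :
    ∃ B : Finset V, B.Nonempty ∧
      (B.card : ℝ) ≤ 4000 * Real.exp (32 / 5 * ε * Real.log K) * (Fintype.card V / K) ∧
      Real.exp (-(32 / 5 * ε * Real.log K)) / 200 * B.card ≤ ∑ x ∈ B, ∑ y ∈ B, P x y := by
  set t := Real.sqrt (4 * Real.log K) with ht
  have hlog : 0 < Real.log K := Real.log_pos (by linarith)
  have ht2 : t ^ 2 = 4 * Real.log K := Real.sq_sqrt (by positivity)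
  have ht0 : 0 ≤ t := Real.sqrt_nonneg _
  have hQ := Qt_pos t ht0
  have hK0 : 0 < K := by linarith
  set a := Real.exp (-(32 / 5 * ε * Real.log K)) with ha
  have ha0 : 0 < a := Real.exp_pos _
  have hexp : Real.exp (-(8 / 5 * ε * t ^ 2)) = a := by
    rw [ht2, ha]; congr 1; ring
  have hVne : Nonempty V := by
    by_contra hcon
    rw [not_nonempty_iff] at hcon
    rw [Finset.univ_eq_empty, Finset.sum_empty] at hK
    linarith
  have hn0 : (0 : ℝ) < Fintype.card V := by exact_mod_cast Fintype.card_pos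
  set R := 9 / 448 * a with hR
  set l := R * K / (80 * Fintype.card V) with hl
  have hl0 : 0 < l := by positivity
  let p : V → V → ℝ := fun x y => (stdGaussian E).real (Gs (v x) t ∩ Gs (v y) t) *
    min (‖v x‖ ^ 2) (‖v y‖ ^ 2)
  have hp0 : ∀ x y, 0 ≤ p x y := fun x y =>
    mul_nonneg measureReal_nonneg (le_min (by positivity) (by positivity))
  -- diagonal
  have hdiag : ∑ x, p x x = Qt t * K := by
    rw [← hK, Finset.mul_sum]
    refine Finset.sum_congr rfl fun x _ => ?_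
    simp only [p]
    rw [Set.inter_self, min_self]
    by_cases hx : v x = 0
    · rw [hx]; simp
    · rw [Gs_self _ hx]
  -- edges
  have hedge : R * (Qt t * K) ≤ ∑ x, ∑ y, P x y * p x y := by
    have h1 := good_weight v P hP hsym hrow K ε hε hK hE
    have h2 : R * (Qt t * K) ≤ R * Qt t * ∑ x, ∑ y, P x y *
        (if (1 - 2 * ε) * ((‖v x‖ ^ 2 + ‖v y‖ ^ 2) / 2) ≤ ⟪v x, v y⟫ then
        ‖v x‖ ^ 2 + ‖v y‖ ^ 2 else 0) := by
      have := mul_le_mul_of_nonneg_left h1 (show 0 ≤ R * Qt t by positivity)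
      linarith
    refine h2.trans ?_
    rw [Finset.mul_sum]
    refine Finset.sum_le_sum fun x _ => ?_
    rw [Finset.mul_sum]
    refine Finset.sum_le_sum fun y _ => ?_
    rw [← mul_assoc, mul_comm (R * Qt t), mul_assoc]
    apply mul_le_mul_of_nonneg_left _ (hP x y)
    split_ifs with h
    · by_cases hx : v x = 0
      · rw [hx] at h ⊢
        rw [inner_zero_left, norm_zero] at h
        have h3 : ‖v y‖ ^ 2 ≤ 0 := by nlinarith [sq_nonneg ‖v y‖]
        have h4 : ‖v y‖ ^ 2 = 0 := le_antisymm h3 (by positivity)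
        rw [h4]; simp
        exact hp0 x y
      · by_cases hy : v y = 0
        · rw [hy] at h ⊢
          rw [inner_zero_right, norm_zero] at h
          have h3 : ‖v x‖ ^ 2 ≤ 0 := by nlinarith [sq_nonneg ‖v x‖]
          have h4 : ‖v x‖ ^ 2 = 0 := le_antisymm h3 (by positivity)
          rw [h4]; simp
          exact hp0 x y
        · obtain ⟨h3, h4⟩ := low ε hε hε8 t ht0 (v x) (v y) hx hy h
          rw [hexp] at h3
          have h5 : 0 ≤ min (‖v x‖ ^ 2) (‖v y‖ ^ 2) := le_min (by positivity) (by positivity)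
          calc R * Qt t * (‖v x‖ ^ 2 + ‖v y‖ ^ 2)
              = (Qt t * (a / 7)) * (9 / 64 * (‖v x‖ ^ 2 + ‖v y‖ ^ 2)) := by rw [hR]; ring
            _ ≤ (Qt t * (a / 7)) * min (‖v x‖ ^ 2) (‖v y‖ ^ 2) :=
                mul_le_mul_of_nonneg_left h4 (by positivity)
            _ ≤ p x y := mul_le_mul_of_nonneg_right h3 h5
    · rw [mul_zero]; exact hp0 x y
  -- all pairs
  have hall : ∑ x, ∑ y, p x y ≤ 40 * Fintype.card V * Qt t := by
    have h1 : ∀ x y, p x y ≤ Qt t * (16 * (⟪v x, v y⟫ ^ 2 / ‖v x‖ ^ 2) + 24 / K * ‖v y‖ ^ 2) := by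
      intro x y
      by_cases hx : v x = 0
      · simp only [p]
        rw [hx, norm_zero]
        have h2 : min ((0 : ℝ) ^ 2) (‖v y‖ ^ 2) = 0 := by
          rw [min_eq_left]
          · norm_num
          · rw [zero_pow two_ne_zero]; exact sq_nonneg _
        rw [h2, mul_zero]
        positivity
      · by_cases hy : v y = 0
        · simp only [p]
          rw [hy, norm_zero]
          have h2 : min (‖v x‖ ^ 2) ((0 : ℝ) ^ 2) = 0 := by
            rw [min_eq_right]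
            · norm_num
            · rw [zero_pow two_ne_zero]; exact sq_nonneg _
          rw [h2, mul_zero]
          positivity
        · have hn : 0 < ‖v x‖ := norm_pos_iff.2 hx
          have hm : 0 < ‖v y‖ := norm_pos_iff.2 hy
          have h2 := up K hK2 (v x) (v y) hx hy
          rw [← ht] at h2
          have h5 : 0 ≤ min (‖v x‖ ^ 2) (‖v y‖ ^ 2) := le_min (by positivity) (by positivity)
          have h6 : min (‖v x‖ ^ 2) (‖v y‖ ^ 2) ≤ ‖v y‖ ^ 2 := min_le_right _ _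
          calc p x y ≤ (Qt t * (16 * (⟪v x, v y⟫ ^ 2 / (‖v x‖ ^ 2 * ‖v y‖ ^ 2)) + 24 / K)) *
                min (‖v x‖ ^ 2) (‖v y‖ ^ 2) := mul_le_mul_of_nonneg_right h2 h5
            _ ≤ (Qt t * (16 * (⟪v x, v y⟫ ^ 2 / (‖v x‖ ^ 2 * ‖v y‖ ^ 2)) + 24 / K)) * ‖v y‖ ^ 2 :=
                mul_le_mul_of_nonneg_left h6 (by positivity)
            _ = _ := by field_simp
    calc ∑ x, ∑ y, p x y ≤ ∑ x, ∑ y, Qt t * (16 * (⟪v x, v y⟫ ^ 2 / ‖v x‖ ^ 2) +
          24 / K * ‖v y‖ ^ 2) := Finset.sum_le_sum fun x _ => Finset.sum_le_sum fun y _ => h1 x y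
      _ = Qt t * ∑ x, (16 * ((∑ y, ⟪v x, v y⟫ ^ 2) / ‖v x‖ ^ 2) + 24) := by
          rw [Finset.mul_sum]
          refine Finset.sum_congr rfl fun x _ => ?_
          rw [← Finset.mul_sum, Finset.sum_add_distrib, ← Finset.mul_sum, ← Finset.mul_sum, hK,
            Finset.sum_div]
          field_simp
      _ ≤ Qt t * ∑ _x : V, (40 : ℝ) := by
          apply mul_le_mul_of_nonneg_left _ hQ.le
          refine Finset.sum_le_sum fun x _ => ?_
          have : (∑ y, ⟪v x, v y⟫ ^ 2) / ‖v x‖ ^ 2 ≤ 1 := by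
            by_cases hx : ‖v x‖ ^ 2 = 0
            · rw [hx]; simp
            · rw [div_le_one (lt_of_le_of_ne (by positivity) (Ne.symm hx))]
              exact hiso x
          linarith
      _ = _ := by rw [Finset.sum_const, Finset.card_univ, nsmul_eq_mul]; ring
  -- the integral is positive
  have hint := Zf_integral v hv t P (R / 4) l
  have hpos : 0 < ∫ ω, Zf v t P (R / 4) l ω ∂(prb E) := by
    rw [hint]
    have h1 : R * (Qt t * K) - R / 4 * (Qt t * K) - l * (40 * Fintype.card V * Qt t) ≤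
        ∑ x, ∑ y, P x y * p x y - R / 4 * ∑ x, p x x - l * ∑ x, ∑ y, p x y := by
      have h2 := mul_le_mul_of_nonneg_left hall hl0.le
      rw [hdiag]
      linarith
    refine lt_of_lt_of_le ?_ h1
    have h3 : l * (40 * Fintype.card V * Qt t) = R * K * Qt t / 2 := by
      rw [hl]; field_simp; ring
    rw [h3]
    have : 0 < R * K * Qt t := by positivity
    linarith
  have hex : ∃ ω, 0 < Zf v t P (R / 4) l ω := by
    by_contra hcon
    push Not at hcon
    exact absurd (integral_nonpos hcon) (not_le.2 hpos)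
  obtain ⟨ω, hω⟩ := hex
  rw [Zf_eq] at hω
  set B := rset v t ω with hB
  have hBne : B.Nonempty := by
    rw [Finset.nonempty_iff_ne_empty]
    intro h
    rw [h] at hω
    simp at hω
  have hBc : (0 : ℝ) < B.card := by exact_mod_cast hBne.card_pos
  have hstay : ∑ x ∈ B, ∑ y ∈ B, P x y ≤ B.card := by
    calc ∑ x ∈ B, ∑ y ∈ B, P x y ≤ ∑ x ∈ B, ∑ y, P x y :=
          Finset.sum_le_sum fun x _ => Finset.sum_le_sum_of_subset_of_nonneg (Finset.subset_univ B)
            fun y _ _ => hP x y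
      _ = B.card := by
          rw [Finset.sum_congr rfl fun x _ => hrow x]; simp
  refine ⟨B, hBne, ?_, ?_⟩
  · have h1 : l * (B.card : ℝ) ^ 2 < B.card := by
      have : 0 ≤ R / 4 * B.card := by positivity
      linarith
    have h2 : l * B.card < 1 := by
      have : l * (B.card : ℝ) * B.card < 1 * B.card := by nlinarith
      exact lt_of_mul_lt_mul_right this hBc.le
    have h3 : Real.exp (32 / 5 * ε * Real.log K) = a⁻¹ := by
      rw [ha, Real.exp_neg, inv_inv]
    rw [h3]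
    have h4 : (B.card : ℝ) < 1 / l := by rw [lt_div_iff₀ hl0]; linarith
    refine h4.le.trans ?_
    rw [hl, hR]
    have h5 : 1 / (9 / 448 * a * K / (80 * (Fintype.card V : ℝ))) =
        (80 * 448 / 9) * (a⁻¹ * (Fintype.card V / K)) := by
      field_simp
    rw [h5]
    have h6 : 0 ≤ a⁻¹ * (Fintype.card V / K) := by positivity
    nlinarith
  · have h1 : R / 4 * B.card ≤ ∑ x ∈ B, ∑ y ∈ B, P x y := by
      have : 0 ≤ l * (B.card : ℝ) ^ 2 := by positivity
      linarith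
    refine le_trans ?_ h1
    apply mul_le_mul_of_nonneg_right _ hBc.le
    rw [hR]; linarith

end

end Pool.Agent.L7h51.TR
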