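import Pool.Agent.L7h51.TR.Trans

set_option autoImplicit false
set_option linter.unusedSectionVars false
set_option maxHeartbeats 4000000

/-! Enlarging small sets in vertex-transitive graphs. -/

namespace Pool.Agent.L7h51.TR

open Finset
open scoped Classical

noncomputable section

variable {V : Type} [Fintype V]

/-- weight of the internal moves -/
def stay (P : V → V → ℝ) (A : Finset V) : ℝ := ∑ x ∈ A, ∑ y ∈ A, P x y

lemma stay_nonneg {P : V → V → ℝ} (hP : ∀ x y, 0 ≤ P x y) (A : Finset V) : 0 ≤ stay P A :=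
  Finset.sum_nonneg fun x _ => Finset.sum_nonneg fun y _ => hP x y

lemma stay_mono {P : V → V → ℝ} (hP : ∀ x y, 0 ≤ P x y) {A B : Finset V} (h : A ⊆ B) :
    stay P A ≤ stay P B := by
  unfold stay
  calc ∑ x ∈ A, ∑ y ∈ A, P x y ≤ ∑ x ∈ A, ∑ y ∈ B, P x y :=
        Finset.sum_le_sum fun x _ => Finset.sum_le_sum_of_subset_of_nonneg h fun y _ _ => hP x y
    _ ≤ ∑ x ∈ B, ∑ y ∈ B, P x y :=
        Finset.sum_le_sum_of_subset_of_nonneg h fun x _ _ => Finset.sum_nonneg fun y _ => hP x y

lemma stay_union {P : V → V → ℝ} (hP : ∀ x y, 0 ≤ P x y) (hsym : ∀ x y, P x y = P y x)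
    (hrow : ∀ x, ∑ y, P x y = 1) (U W : Finset V) :
    stay P U + stay P W - 2 * ((W ∩ U).card : ℝ) ≤ stay P (U ∪ W) := by
  have h1 : stay P U + stay P (W \ U) ≤ stay P (U ∪ W) := by
    have h2 : U ∪ W = U ∪ (W \ U) := by rw [Finset.union_sdiff_self_eq_union]
    rw [h2]
    unfold stay
    rw [Finset.sum_union Finset.disjoint_sdiff]
    apply add_le_add
    · exact Finset.sum_le_sum fun x _ => Finset.sum_le_sum_of_subset_of_nonneg
        Finset.subset_union_left fun y _ _ => hP x y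
    · exact Finset.sum_le_sum fun x _ => Finset.sum_le_sum_of_subset_of_nonneg
        Finset.subset_union_right fun y _ _ => hP x y
  have h2 : stay P W ≤ stay P (W \ U) + 2 * ((W ∩ U).card : ℝ) := by
    have hcap : ∀ (T : Finset V), ∑ x ∈ W ∩ U, ∑ y ∈ T, P x y ≤ ((W ∩ U).card : ℝ) := by
      intro T
      calc ∑ x ∈ W ∩ U, ∑ y ∈ T, P x y ≤ ∑ x ∈ W ∩ U, ∑ y, P x y :=
            Finset.sum_le_sum fun x _ => Finset.sum_le_sum_of_subset_of_nonneg
              (Finset.subset_univ T) fun y _ _ => hP x y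
        _ = _ := by rw [Finset.sum_congr rfl fun x _ => hrow x]; simp
    have hW : W = (W \ U) ∪ (W ∩ U) := (Finset.sdiff_union_inter W U).symm
    have hdis : Disjoint (W \ U) (W ∩ U) := Finset.disjoint_sdiff_inter W U
    have h3 : stay P W = ∑ x ∈ W \ U, ∑ y ∈ W, P x y + ∑ x ∈ W ∩ U, ∑ y ∈ W, P x y := by
      unfold stay
      conv_lhs => rw [hW]
      rw [Finset.sum_union hdis, ← hW]
    have h4 : ∑ x ∈ W \ U, ∑ y ∈ W, P x y = stay P (W \ U) + ∑ x ∈ W \ U, ∑ y ∈ W ∩ U, P x y := by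
      unfold stay
      rw [← Finset.sum_add_distrib]
      refine Finset.sum_congr rfl fun x _ => ?_
      conv_lhs => rw [hW]
      rw [Finset.sum_union hdis]
    have h5 : ∑ x ∈ W \ U, ∑ y ∈ W ∩ U, P x y ≤ ((W ∩ U).card : ℝ) := by
      rw [Finset.sum_comm]
      refine le_trans (le_of_eq ?_) (hcap (W \ U))
      exact Finset.sum_congr rfl fun x _ => Finset.sum_congr rfl fun y _ => hsym _ _
    have h6 := hcap W
    linarith
  linarith

/-- an automorphism that moves `B` away from `U` -/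
lemma exists_aut (Γ : SimpleGraph V) (hT : VertexTransitive Γ) (U B : Finset V) :
    ∃ φ : Γ ≃g Γ, (Fintype.card V : ℝ) * ((im φ B ∩ U).card : ℝ) ≤ B.card * U.card := by
  by_contra hcon
  push Not at hcon
  have hN : Nonempty (Γ ≃g Γ) := ⟨RelIso.refl _⟩
  have h1 : ∑ φ : Γ ≃g Γ, (Fintype.card V : ℝ) * ((im φ B ∩ U).card : ℝ) =
      Fintype.card (Γ ≃g Γ) * (B.card * U.card) := by
    have h2 : ∀ φ : Γ ≃g Γ, ((im φ B ∩ U).card : ℝ) = ∑ x ∈ B, if φ x ∈ U then (1 : ℝ) else 0 := by
      intro φ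
      rw [← Finset.filter_mem_eq_inter, Finset.card_filter]
      push_cast
      rw [im_sum]
    simp_rw [h2]
    rw [← Finset.mul_sum, Finset.sum_comm, Finset.mul_sum]
    rw [Finset.sum_congr rfl fun x _ => avg Γ hT (fun y => if y ∈ U then (1 : ℝ) else 0) x]
    rw [Finset.sum_const, nsmul_eq_mul]
    have h3 : ∑ y : V, (if y ∈ U then (1 : ℝ) else 0) = U.card := by simp
    rw [h3]; ring
  have h2 : ∑ _φ : Γ ≃g Γ, (B.card * U.card : ℝ) <
      ∑ φ : Γ ≃g Γ, (Fintype.card V : ℝ) * ((im φ B ∩ U).card : ℝ) :=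
    Finset.sum_lt_sum_of_nonempty Finset.univ_nonempty fun φ _ => hcon φ
  rw [h1, Finset.sum_const, Finset.card_univ, nsmul_eq_mul] at h2
  exact lt_irrefl _ h2

/-- **Sets of a prescribed size.** -/
theorem pad (Γ : SimpleGraph V) (d : ℕ) (hd : 1 ≤ d) (hΓ : Γ.IsRegularOfDegree d)
    (hT : VertexTransitive Γ) (B : Finset V) (hB : B.Nonempty) (r : ℝ)
    (hr : r * B.card ≤ stay (Pw Γ d) B) (k : ℕ) (hk : B.card ≤ k) (hkn : k ≤ Fintype.card V) :
    ∃ S : Finset V, S.card = k ∧ (r / 2 - (k : ℝ) / Fintype.card V) * k ≤ stay (Pw Γ d) S := by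
  have hP := Pw_nonneg Γ d
  have hsym := Pw_symm Γ d
  have hrow := Pw_row Γ d hd hΓ
  have hBc : 0 < B.card := hB.card_pos
  have hk0 : 0 < k := by omega
  have hn : 0 < Fintype.card V := by omega
  have hn0 : (0 : ℝ) < Fintype.card V := by exact_mod_cast hn
  have hkr : (0 : ℝ) < k := by exact_mod_cast hk0
  set r' := r - 2 * (k / Fintype.card V) with hr'
  have hgoal : ∀ S : Finset V, r' * k / 2 ≤ stay (Pw Γ d) S →
      (r / 2 - (k : ℝ) / Fintype.card V) * k ≤ stay (Pw Γ d) S := by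
    intro S h
    refine le_trans (le_of_eq ?_) h
    rw [hr']; ring
  rcases lt_or_ge r' 0 with hneg | hpos
  · obtain ⟨S, _, hS⟩ := Finset.exists_superset_card_eq hk hkn
    refine ⟨S, hS, hgoal S ?_⟩
    have h1 : r' * k / 2 ≤ 0 := by nlinarith
    exact h1.trans (stay_nonneg hP S)
  · have hne : (univ.filter fun U : Finset V => U.card ≤ k ∧ B.card ≤ U.card ∧
        r' * U.card ≤ stay (Pw Γ d) U).Nonempty := by
      refine ⟨B, ?_⟩
      simp only [Finset.mem_filter, Finset.mem_univ, true_and]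
      refine ⟨hk, le_refl _, le_trans ?_ hr⟩
      apply mul_le_mul_of_nonneg_right _ (Nat.cast_nonneg _)
      rw [hr']
      have : (0 : ℝ) ≤ 2 * (k / Fintype.card V) := by positivity
      linarith
    obtain ⟨U, hU, hmax⟩ := Finset.exists_max_image _ (fun U : Finset V => U.card) hne
    simp only [Finset.mem_filter, Finset.mem_univ, true_and] at hU hmax
    obtain ⟨hU1, hU2, hU3⟩ := hU
    have hlarge : k < U.card + B.card := by
      by_contra hcon
      push Not at hcon
      obtain ⟨φ, hφ⟩ := exists_aut Γ hT U B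
      have h1 := stay_union hP hsym hrow U (im φ B)
      have hcard : (U ∪ im φ B).card + (im φ B ∩ U).card = U.card + B.card := by
        rw [← im_card φ B, Finset.inter_comm, Finset.card_union_add_card_inter]
      have hcap : ((im φ B ∩ U).card : ℝ) ≤ B.card * (k / Fintype.card V) := by
        rw [← mul_div_assoc, le_div_iff₀ hn0]
        have : (B.card : ℝ) * U.card ≤ B.card * k :=
          mul_le_mul_of_nonneg_left (by exact_mod_cast hU1) (Nat.cast_nonneg _)
        linarith
      have hlt : (im φ B ∩ U).card < B.card := by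
        have hUk : U.card < Fintype.card V := by omega
        have h2 : (Fintype.card V : ℝ) * ((im φ B ∩ U).card : ℝ) < Fintype.card V * B.card := by
          refine lt_of_le_of_lt hφ ?_
          rw [mul_comm]
          apply mul_lt_mul_of_pos_right _ (by exact_mod_cast hBc)
          exact_mod_cast hUk
        have h3 := lt_of_mul_lt_mul_left h2 hn0.le
        exact_mod_cast h3
      have h2 := hmax (U ∪ im φ B) ⟨by omega, by omega, by
        have h4 : stay (Pw Γ d) (im φ B) = stay (Pw Γ d) B := im_stay d φ B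
        rw [h4] at h1
        have h5 : ((U ∪ im φ B).card : ℝ) ≤ U.card + B.card := by
          have : (U ∪ im φ B).card ≤ U.card + B.card := by omega
          exact_mod_cast this
        have h6 : r' * ((U ∪ im φ B).card : ℝ) ≤ r' * (U.card + B.card) :=
          mul_le_mul_of_nonneg_left h5 hpos
        have h7 : r' * (B.card : ℝ) = r * B.card - 2 * (B.card * (k / Fintype.card V)) := by
          rw [hr']; ring
        nlinarith⟩
      omega
    obtain ⟨S, hUS, hS⟩ := Finset.exists_superset_card_eq hU1 hkn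
    refine ⟨S, hS, hgoal S ?_⟩
    have h1 : (k : ℝ) / 2 ≤ U.card := by
      have : k ≤ 2 * U.card := by omega
      have h2 : (k : ℝ) ≤ 2 * U.card := by exact_mod_cast this
      linarith
    calc r' * k / 2 = r' * (k / 2) := by ring
      _ ≤ r' * U.card := mul_le_mul_of_nonneg_left h1 hpos
      _ ≤ stay (Pw Γ d) U := hU3
      _ ≤ stay (Pw Γ d) S := stay_mono hP hUS

/-- Yes instances of `SSE(η,δ)` for the `d`-regular graph `Γ`. -/
def SseYes (Γ : SimpleGraph V) (d : ℕ) (eta del : ℝ) : Prop :=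
  ∃ A : Finset V, A.Nonempty ∧ (A.card : ℝ) = del * Fintype.card V ∧ expansion Γ d A ≤ eta

/-- No instances of `SSE(η,δ)` for the `d`-regular graph `Γ`. -/
def SseNo (Γ : SimpleGraph V) (d : ℕ) (eta del : ℝ) : Prop :=
  (∃ k : ℕ, 1 ≤ k ∧ (k : ℝ) = del * Fintype.card V) ∧
    ∀ A : Finset V, A.Nonempty → (A.card : ℝ) = del * Fintype.card V → 1 - eta ≤ expansion Γ d A

/-- in vertex-transitive no instances the smaller sets expand as well -/
theorem no_small (Γ : SimpleGraph V) (d : ℕ) (hd : 1 ≤ d) (hΓ : Γ.IsRegularOfDegree d)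
    (hT : VertexTransitive Γ) (eta del : ℝ) (hdel : del ≤ 1) (hno : SseNo Γ d eta del)
    (B : Finset V) (hB : B.Nonempty) (hBc : (B.card : ℝ) ≤ del * Fintype.card V) :
    1 - 2 * (eta + del) ≤ expansion Γ d B := by
  obtain ⟨⟨k, hk1, hk⟩, hno⟩ := hno
  have hB0 : (0 : ℝ) < B.card := by exact_mod_cast hB.card_pos
  have hn : 0 < Fintype.card V := by
    obtain ⟨b, _⟩ := hB
    exact Fintype.card_pos_iff.2 ⟨b⟩
  have hn0 : (0 : ℝ) < Fintype.card V := by exact_mod_cast hn
  have hkn : k ≤ Fintype.card V := by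
    have : (k : ℝ) ≤ Fintype.card V := by rw [hk]; nlinarith
    exact_mod_cast this
  have hBk : B.card ≤ k := by
    have : (B.card : ℝ) ≤ k := by rw [hk]; exact hBc
    exact_mod_cast this
  have hst : stay (Pw Γ d) B = (1 - expansion Γ d B) * B.card := by
    rw [expansion_eq Γ d hd hΓ B hB]
    unfold stay
    field_simp
    ring
  obtain ⟨S, hS, hSt⟩ := pad Γ d hd hΓ hT B hB (1 - expansion Γ d B) hst.ge k hBk hkn
  have hSne : S.Nonempty := by
    rw [← Finset.card_pos, hS]; omega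
  have hS0 : (0 : ℝ) < S.card := by exact_mod_cast hSne.card_pos
  have h1 := hno S hSne (by rw [hS, hk])
  rw [expansion_eq Γ d hd hΓ S hSne] at h1
  have h2 : (∑ x ∈ S, ∑ y ∈ S, Pw Γ d x y) / S.card ≤ eta := by linarith
  rw [div_le_iff₀ hS0, hS] at h2
  have h3 : (k : ℝ) / Fintype.card V = del := by
    rw [hk]; field_simp
  rw [h3] at hSt
  have hk0 : (0 : ℝ) < k := by exact_mod_cast hk1
  have h4 : ((1 - expansion Γ d B) / 2 - del) * k ≤ eta * k := hSt.trans h2
  have h5 := le_of_mul_le_mul_right h4 hk0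
  linarith

end

end Pool.Agent.L7h51.TR
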