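import Pool.Agent.L7h51.TR.Gauss

set_option autoImplicit false
set_option linter.unusedSectionVars false
set_option maxHeartbeats 4000000

/-! Gaussian rounding of vectors on a weighted graph. -/

namespace Pool.Agent.L7h51.TR

open MeasureTheory ProbabilityTheory Finset
open scoped RealInnerProductSpace Classical

noncomputable section

/-! ### Estimates for two vectors of arbitrary lengths -/

variable {E : Type*} [NormedAddCommGroup E] [InnerProductSpace ℝ E] [FiniteDimensional ℝ E]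
  [MeasurableSpace E] [BorelSpace E]

/-- half-space of the direction of `v` -/
def Gs (v : E) (t : ℝ) : Set E := Hs v (t * ‖v‖)

lemma measurableSet_Gs (v : E) (t : ℝ) : MeasurableSet (Gs v t) := measurableSet_Hs _ _

lemma Gs_eq (v : E) (hv : v ≠ 0) (t : ℝ) : Gs v t = Hs (‖v‖⁻¹ • v) t := by
  have hn : 0 < ‖v‖ := norm_pos_iff.2 hv
  ext g
  unfold Gs Hs
  simp only [Set.mem_setOf_eq]
  rw [real_inner_smul_left, ← div_eq_inv_mul, le_div_iff₀ hn]

lemma norm_dir (v : E) (hv : v ≠ 0) : ‖(‖v‖⁻¹ • v)‖ = 1 := by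
  have hn : 0 < ‖v‖ := norm_pos_iff.2 hv
  rw [norm_smul, norm_inv, norm_norm]
  field_simp

lemma Gs_self (v : E) (hv : v ≠ 0) (t : ℝ) : (stdGaussian E).real (Gs v t) = Qt t := by
  rw [Gs_eq v hv, Hs_unit _ (norm_dir v hv)]

/-- upper bound: with `t² = 4 log K` -/
lemma up (K : ℝ) (hK : 2 ≤ K) (v w : E) (hv : v ≠ 0) (hw : w ≠ 0) :
    (stdGaussian E).real (Gs v (Real.sqrt (4 * Real.log K)) ∩ Gs w (Real.sqrt (4 * Real.log K))) ≤
      Qt (Real.sqrt (4 * Real.log K)) * (16 * (⟪v, w⟫ ^ 2 / (‖v‖ ^ 2 * ‖w‖ ^ 2)) + 24 / K) := by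
  set t := Real.sqrt (4 * Real.log K) with ht
  have hn : 0 < ‖v‖ := norm_pos_iff.2 hv
  have hm : 0 < ‖w‖ := norm_pos_iff.2 hw
  have hlog : 0 < Real.log K := Real.log_pos (by linarith)
  have ht2 : t ^ 2 = 4 * Real.log K := Real.sq_sqrt (by positivity)
  have ht0 : 0 ≤ t := Real.sqrt_nonneg _
  have hQ := Qt_nonneg t
  set ρ := ⟪(‖v‖⁻¹ • v), (‖w‖⁻¹ • w)⟫ with hρ
  have hρ2 : ⟪v, w⟫ ^ 2 / (‖v‖ ^ 2 * ‖w‖ ^ 2) = ρ ^ 2 := by
    rw [hρ, real_inner_smul_left, real_inner_smul_right]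
    field_simp
  rw [hρ2]
  by_cases h : ρ ≤ 1 / 4
  · have h1 := pair_upper (‖v‖⁻¹ • v) (‖w‖⁻¹ • w) (norm_dir v hv) (norm_dir w hw) h t ht0
    rw [← Gs_eq v hv, ← Gs_eq w hw] at h1
    have hlog2 : 0.6931471803 < Real.log 2 := Real.log_two_gt_d9
    have hlogK : Real.log 2 ≤ Real.log K := Real.log_le_log (by norm_num) hK
    have ht1 : 1 ≤ t := by
      rw [ht, Real.le_sqrt' (by norm_num)]
      linarith
    have h2 := Qt_lower2 t ht1
    have h3 : t ≤ 2 * Real.exp (t ^ 2 / 20) := by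
      have h4 := Real.quadratic_le_exp_of_nonneg (show (0 : ℝ) ≤ t ^ 2 / 20 by positivity)
      nlinarith [sq_nonneg (t - 13 / 4), sq_nonneg (t ^ 2 - (13 / 4) ^ 2), sq_nonneg (t * (t - 13 / 4))]
    have h5 : Real.exp (-(4 / 5) * t ^ 2) ≤ Qt t * (24 / K) := by
      have h6 : Real.exp (-t ^ 2 / 2) / (12 * t) * (24 / K) ≤ Qt t * (24 / K) :=
        mul_le_mul_of_nonneg_right h2 (by positivity)
      refine le_trans ?_ h6
      have h7 : K = Real.exp (t ^ 2 / 4) := by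
        rw [ht2, mul_div_cancel_left₀ _ (by norm_num : (4 : ℝ) ≠ 0), Real.exp_log (by linarith)]
      have h8 : Real.exp (-t ^ 2 / 2) / (12 * t) * (24 / K) = 2 * Real.exp (-t ^ 2 / 2) / (t * K) := by
        have : t ≠ 0 := by linarith
        field_simp
        ring
      rw [h8, h7, le_div_iff₀ (by positivity)]
      calc Real.exp (-(4 / 5) * t ^ 2) * (t * Real.exp (t ^ 2 / 4))
          ≤ Real.exp (-(4 / 5) * t ^ 2) * ((2 * Real.exp (t ^ 2 / 20)) * Real.exp (t ^ 2 / 4)) := by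
            apply mul_le_mul_of_nonneg_left _ (Real.exp_pos _).le
            exact mul_le_mul_of_nonneg_right h3 (Real.exp_pos _).le
        _ = 2 * Real.exp (-(4 / 5) * t ^ 2 + t ^ 2 / 20 + t ^ 2 / 4) := by
            rw [Real.exp_add, Real.exp_add]; ring
        _ = 2 * Real.exp (-t ^ 2 / 2) := by
            congr 2; ring
    refine h1.trans (h5.trans ?_)
    apply mul_le_mul_of_nonneg_left _ hQ
    have : 0 ≤ 16 * ρ ^ 2 := by positivity
    linarith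
  · push Not at h
    have h1 : (stdGaussian E).real (Gs v t ∩ Gs w t) ≤ Qt t := by
      rw [← Gs_self v hv t]
      exact measureReal_mono Set.inter_subset_left (measure_ne_top _ _)
    refine h1.trans ?_
    have h2 : 1 ≤ 16 * ρ ^ 2 + 24 / K := by
      have : 0 ≤ 24 / K := by positivity
      nlinarith
    nlinarith

/-- lower bound for two vectors which are nearly equal -/
lemma low (ε : ℝ) (hε : 0 ≤ ε) (hε8 : ε ≤ 1 / 8) (t : ℝ) (ht : 0 ≤ t) (v w : E) (hv : v ≠ 0)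
    (hw : w ≠ 0)
    (h : (1 - 2 * ε) * ((‖v‖ ^ 2 + ‖w‖ ^ 2) / 2) ≤ ⟪v, w⟫) :
    Qt t * (Real.exp (-(8 / 5 * ε * t ^ 2)) / 7) ≤ (stdGaussian E).real (Gs v t ∩ Gs w t) ∧
    9 / 64 * (‖v‖ ^ 2 + ‖w‖ ^ 2) ≤ min (‖v‖ ^ 2) (‖w‖ ^ 2) := by
  have hn : 0 < ‖v‖ := norm_pos_iff.2 hv
  have hm : 0 < ‖w‖ := norm_pos_iff.2 hw
  have hcs := real_inner_le_norm v w
  have hpos : 0 < ‖v‖ ^ 2 + ‖w‖ ^ 2 := by positivity
  constructor
  · set ρ := ⟪(‖v‖⁻¹ • v), (‖w‖⁻¹ • w)⟫ with hρ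
    have hρ2 : ρ = ⟪v, w⟫ / (‖v‖ * ‖w‖) := by
      rw [hρ, real_inner_smul_left, real_inner_smul_right]
      field_simp
    have h1 : 1 - 2 * ε ≤ ρ := by
      rw [hρ2, le_div_iff₀ (by positivity)]
      refine le_trans ?_ h
      apply mul_le_mul_of_nonneg_left _ (by linarith)
      nlinarith [sq_nonneg (‖v‖ - ‖w‖)]
    have h2 := pair_lower (‖v‖⁻¹ • v) (‖w‖⁻¹ • w) (norm_dir v hv) (norm_dir w hw)
      (by rw [← hρ]; linarith) t ht
    rw [← Gs_eq v hv, ← Gs_eq w hw, ← hρ] at h2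
    have hρ1 : ρ ≤ 1 := by
      rw [hρ2, div_le_one (by positivity)]
      exact hcs
    refine le_trans ?_ h2
    apply mul_le_mul_of_nonneg_left _ (Qt_nonneg t)
    refine le_trans ?_ (Qt_lower1 _ (by positivity))
    apply div_le_div_of_nonneg_right _ (by norm_num)
    apply Real.exp_le_exp.2
    have h3 : 0 ≤ (1 - ρ) / (1 + ρ) := div_nonneg (by linarith) (by linarith)
    rw [mul_pow, Real.sq_sqrt h3]
    have h4 : (1 - ρ) / (1 + ρ) ≤ 8 / 5 * ε := by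
      rw [div_le_iff₀ (by linarith)]
      nlinarith
    nlinarith [mul_le_mul_of_nonneg_left h4 (sq_nonneg t)]
  · have h1 : (1 - 2 * ε) * ((‖v‖ ^ 2 + ‖w‖ ^ 2) / 2) ≤ ‖v‖ * ‖w‖ := h.trans hcs
    have h2 : 3 / 8 * (‖v‖ ^ 2 + ‖w‖ ^ 2) ≤ ‖v‖ * ‖w‖ := by nlinarith
    have h3 : 9 / 64 * (‖v‖ ^ 2 + ‖w‖ ^ 2) ^ 2 ≤ ‖v‖ ^ 2 * ‖w‖ ^ 2 := by
      have h4 : (3 / 8 * (‖v‖ ^ 2 + ‖w‖ ^ 2)) ^ 2 ≤ (‖v‖ * ‖w‖) ^ 2 :=
        pow_le_pow_left₀ (by positivity) h2 2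
      nlinarith
    apply le_min
    · by_contra hcon
      push Not at hcon
      nlinarith [mul_pos hpos hpos, sq_nonneg ‖w‖, mul_lt_mul_of_pos_right hcon (pow_pos hm 2)]
    · by_contra hcon
      push Not at hcon
      nlinarith [mul_pos hpos hpos, sq_nonneg ‖v‖, mul_lt_mul_of_pos_right hcon (pow_pos hn 2)]

end

end Pool.Agent.L7h51.TR
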