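import Pool.Agent.L7h51.TR.Main

set_option autoImplicit false
set_option linter.unusedSectionVars false
set_option maxHeartbeats 4000000

/-! Graphs: from eigenvalues to small sets. -/

namespace Pool.Agent.L7h51.TR

open MeasureTheory ProbabilityTheory Finset Matrix
open scoped RealInnerProductSpace Classical

noncomputable section

variable {V : Type} [Fintype V]

/-- The number of edges of `Γ` with exactly one endpoint in `A`, counted as ordered pairs
`(x,y)` with `x ∈ A`, `y ∉ A`. -/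
def cut (Γ : SimpleGraph V) (A : Finset V) : ℕ :=
  (univ.filter fun p : V × V => p.1 ∈ A ∧ p.2 ∉ A ∧ Γ.Adj p.1 p.2).card

/-- The expansion `|E(A, V∖A)|/(d|A|)` in a `d`-regular graph. -/
def expansion (Γ : SimpleGraph V) (d : ℕ) (A : Finset V) : ℝ :=
  (cut Γ A : ℝ) / (d * A.card)

lemma isHerm (Γ : SimpleGraph V) : (Γ.adjMatrix ℝ).IsHermitian := by
  rw [Matrix.IsHermitian, Matrix.conjTranspose_eq_transpose_of_trivial]
  exact Γ.isSymm_adjMatrix

/-- The number of eigenvalues of the adjacency matrix of `Γ` which are at least `θ`, counted with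
multiplicity. -/
def eigCount (Γ : SimpleGraph V) (θ : ℝ) : ℕ :=
  (univ.filter fun i : V => θ ≤ (isHerm Γ).eigenvalues i).card

/-- transition probabilities -/
def Pw (Γ : SimpleGraph V) (d : ℕ) (x y : V) : ℝ := (if Γ.Adj x y then 1 else 0) / d

lemma Pw_nonneg (Γ : SimpleGraph V) (d : ℕ) (x y : V) : 0 ≤ Pw Γ d x y := by
  unfold Pw; split_ifs <;> positivity

lemma Pw_symm (Γ : SimpleGraph V) (d : ℕ) (x y : V) : Pw Γ d x y = Pw Γ d y x := by
  unfold Pw; simp only [Γ.adj_comm x y]

lemma Pw_row (Γ : SimpleGraph V) (d : ℕ) (hd : 1 ≤ d) (hΓ : Γ.IsRegularOfDegree d) (x : V) :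
    ∑ y, Pw Γ d x y = 1 := by
  have hd0 : (0 : ℝ) < d := by exact_mod_cast hd
  unfold Pw
  rw [← Finset.sum_div, div_eq_one_iff_eq hd0.ne', ← Finset.sum_filter, Finset.sum_const,
    nsmul_eq_mul, mul_one]
  have h := hΓ x
  rw [← SimpleGraph.card_neighborFinset_eq_degree, SimpleGraph.neighborFinset_eq_filter] at h
  exact_mod_cast h

lemma expansion_eq (Γ : SimpleGraph V) (d : ℕ) (hd : 1 ≤ d) (hΓ : Γ.IsRegularOfDegree d)
    (A : Finset V) (hA : A.Nonempty) :
    expansion Γ d A = 1 - (∑ x ∈ A, ∑ y ∈ A, Pw Γ d x y) / A.card := by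
  have hd0 : (0 : ℝ) < d := by exact_mod_cast hd
  have hA0 : (0 : ℝ) < A.card := by exact_mod_cast hA.card_pos
  have h1 : (cut Γ A : ℝ) = ∑ x ∈ A, ∑ y ∈ univ \ A, (if Γ.Adj x y then (1 : ℝ) else 0) := by
    unfold cut
    rw [Finset.card_filter]
    push_cast
    rw [← Finset.univ_product_univ, Finset.sum_product,
      ← Finset.sum_subset (Finset.subset_univ A)]
    · refine Finset.sum_congr rfl fun x hx => ?_
      rw [← Finset.sum_subset (Finset.subset_univ (univ \ A))]
      · refine Finset.sum_congr rfl fun y hy => ?_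
        have hy' : y ∉ A := by simpa using hy
        simp [hx, hy']
      · intro y _ hy
        have hy' : y ∈ A := by simpa using hy
        simp [hy']
    · intro x _ hx
      simp [hx]
  have h2 : ∑ x ∈ A, ∑ y ∈ univ \ A, Pw Γ d x y + ∑ x ∈ A, ∑ y ∈ A, Pw Γ d x y = A.card := by
    rw [← Finset.sum_add_distrib]
    have : ∀ x ∈ A, ∑ y ∈ univ \ A, Pw Γ d x y + ∑ y ∈ A, Pw Γ d x y = 1 := by
      intro x _
      rw [Finset.sum_sdiff (Finset.subset_univ A)]
      exact Pw_row Γ d hd hΓ x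
    rw [Finset.sum_congr rfl this]; simp
  have h3 : ∑ x ∈ A, ∑ y ∈ univ \ A, Pw Γ d x y = cut Γ A / d := by
    rw [h1, Finset.sum_div]
    refine Finset.sum_congr rfl fun x _ => ?_
    rw [Finset.sum_div]
    rfl
  unfold expansion
  rw [h3] at h2
  rw [← div_div, eq_sub_iff_add_eq, ← add_div, h2, div_self hA0.ne']

/-- from an orthonormal family -/
theorem of_family {ι : Type} [Fintype ι] (u : ι → V → ℝ)
    (hu : ∀ i j, ∑ x, u i x * u j x = if i = j then 1 else 0) (P : V → V → ℝ)
    (hP : ∀ x y, 0 ≤ P x y) (hsym : ∀ x y, P x y = P y x) (hrow : ∀ x, ∑ y, P x y = 1)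
    (ε : ℝ) (hε : 0 ≤ ε) (hε8 : ε ≤ 1 / 8) (hK2 : 2 ≤ Fintype.card ι)
    (hE : (1 - ε) * Fintype.card ι ≤ ∑ i, ∑ x, ∑ y, P x y * (u i x * u i y)) :
    ∃ B : Finset V, B.Nonempty ∧
      (B.card : ℝ) ≤ 4000 * Real.exp (32 / 5 * ε * Real.log (Fintype.card ι)) *
        (Fintype.card V / Fintype.card ι) ∧
      Real.exp (-(32 / 5 * ε * Real.log (Fintype.card ι))) / 200 * B.card ≤
        ∑ x ∈ B, ∑ y ∈ B, P x y := by
  let v : V → EuclideanSpace ℝ ι := fun x => WithLp.toLp 2 (fun i => u i x)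
  have hin : ∀ x y, ⟪v x, v y⟫ = ∑ i, u i x * u i y := by
    intro x y
    simp only [v, PiLp.inner_apply]
    refine Finset.sum_congr rfl fun i _ => ?_
    simp [mul_comm]
  have hno : ∀ x, ‖v x‖ ^ 2 = ∑ i, u i x * u i x := by
    intro x
    rw [← real_inner_self_eq_norm_sq, hin]
  have hiso : ∀ x, ∑ y, ⟪v x, v y⟫ ^ 2 = ‖v x‖ ^ 2 := by
    intro x
    rw [hno]
    have h1 : ∀ y, ⟪v x, v y⟫ ^ 2 = ∑ i, ∑ j, (u i x * u j x) * (u i y * u j y) := by
      intro y
      rw [hin, pow_two, Finset.sum_mul_sum]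
      refine Finset.sum_congr rfl fun i _ => Finset.sum_congr rfl fun j _ => ?_
      ring
    rw [Finset.sum_congr rfl fun y _ => h1 y, Finset.sum_comm]
    refine Finset.sum_congr rfl fun i _ => ?_
    rw [Finset.sum_comm]
    have h2 : ∀ j, ∑ y, (u i x * u j x) * (u i y * u j y) = (u i x * u j x) * (if i = j then 1 else 0) := by
      intro j
      rw [← Finset.mul_sum, hu]
    rw [Finset.sum_congr rfl fun j _ => h2 j]
    simp
  refine round v P hP hsym hrow (Fintype.card ι) ε hε hε8 (by exact_mod_cast hK2) ?_ ?_ ?_ ?_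
  · rw [Finset.sum_congr rfl fun x _ => hno x, Finset.sum_comm]
    rw [Finset.sum_congr rfl fun i _ => hu i i]
    simp
  · intro x
    have h1 : ⟪v x, v x⟫ ^ 2 ≤ ‖v x‖ ^ 2 := by
      rw [← hiso x]
      exact Finset.single_le_sum (f := fun y => ⟪v x, v y⟫ ^ 2) (fun y _ => sq_nonneg _)
        (Finset.mem_univ x)
    rw [real_inner_self_eq_norm_sq] at h1
    by_contra hcon
    push Not at hcon
    nlinarith
  · intro x
    exact (hiso x).le
  · refine hE.trans (le_of_eq ?_)
    rw [Finset.sum_comm]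
    refine Finset.sum_congr rfl fun x _ => ?_
    rw [Finset.sum_comm]
    refine Finset.sum_congr rfl fun y _ => ?_
    rw [hin, Finset.mul_sum]

/-- the eigenvectors -/
def ev (Γ : SimpleGraph V) (i x : V) : ℝ := (isHerm Γ).eigenvectorBasis i x

lemma ev_orth (Γ : SimpleGraph V) (i j : V) :
    ∑ x, ev Γ i x * ev Γ j x = if i = j then 1 else 0 := by
  have h := (orthonormal_iff_ite.1 (isHerm Γ).eigenvectorBasis.orthonormal) i j
  rw [PiLp.inner_apply] at h
  rw [← h]
  refine Finset.sum_congr rfl fun x _ => ?_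
  simp [ev, mul_comm]

lemma ev_mul (Γ : SimpleGraph V) (i x : V) :
    ∑ y, (if Γ.Adj x y then (1 : ℝ) else 0) * ev Γ i y = (isHerm Γ).eigenvalues i * ev Γ i x := by
  have h := congrFun ((isHerm Γ).mulVec_eigenvectorBasis i) x
  rw [Matrix.mulVec, dotProduct] at h
  simpa [SimpleGraph.adjMatrix_apply, ev] using h

lemma ev_form (Γ : SimpleGraph V) (d : ℕ) (i : V) :
    ∑ x, ∑ y, Pw Γ d x y * (ev Γ i x * ev Γ i y) = (isHerm Γ).eigenvalues i / d := by
  have h1 : ∀ x, ∑ y, Pw Γ d x y * (ev Γ i x * ev Γ i y) =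
      (isHerm Γ).eigenvalues i / d * (ev Γ i x * ev Γ i x) := by
    intro x
    have h2 : ∀ y, Pw Γ d x y * (ev Γ i x * ev Γ i y) =
        (ev Γ i x / d) * ((if Γ.Adj x y then (1 : ℝ) else 0) * ev Γ i y) := by
      intro y; unfold Pw; ring
    rw [Finset.sum_congr rfl fun y _ => h2 y, ← Finset.mul_sum, ev_mul]
    ring
  rw [Finset.sum_congr rfl fun x _ => h1 x, ← Finset.mul_sum, ev_orth]
  simp

/-- **Small sets from many large eigenvalues.** -/
theorem small_sets (Γ : SimpleGraph V) (d : ℕ) (hd : 1 ≤ d) (hΓ : Γ.IsRegularOfDegree d) (K : ℕ)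
    (hK : 1 ≤ K) (ε : ℝ) (hε : 0 ≤ ε) (hcount : K ≤ eigCount Γ ((1 - ε) * d)) :
    ∃ B : Finset V, B.Nonempty ∧
      (B.card : ℝ) ≤ 4000 * (K : ℝ) ^ (8 * ε) / K * Fintype.card V ∧
      expansion Γ d B ≤ 1 - (K : ℝ) ^ (-(8 * ε)) / 200 := by
  have hd0 : (0 : ℝ) < d := by exact_mod_cast hd
  have hK1 : (1 : ℝ) ≤ K := by exact_mod_cast hK
  have hK0 : (0 : ℝ) < K := by linarith
  have hVne : Nonempty V := by
    by_contra hcon
    rw [not_nonempty_iff] at hcon
    unfold eigCount at hcount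
    rw [Finset.univ_eq_empty, Finset.filter_empty, Finset.card_empty] at hcount
    omega
  have hn0 : (0 : ℝ) < Fintype.card V := by exact_mod_cast Fintype.card_pos
  by_cases htriv : ε ≤ 1 / 8 ∧ 2 ≤ K
  · obtain ⟨hε8, hK2⟩ := htriv
    unfold eigCount at hcount
    obtain ⟨I, hI, hIc⟩ := Finset.exists_subset_card_eq hcount
    have hcard : Fintype.card I = K := by rw [Fintype.card_coe, hIc]
    obtain ⟨B, hB, hB1, hB2⟩ := of_family (ι := I) (fun i => ev Γ i)
      (by
        intro i j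
        rw [ev_orth]
        simp only [Subtype.ext_iff])
      (Pw Γ d) (Pw_nonneg Γ d) (Pw_symm Γ d) (Pw_row Γ d hd hΓ) ε hε hε8
      (by rw [hcard]; exact hK2)
      (by
        rw [hcard]
        rw [Finset.sum_congr rfl fun (i : I) _ => ev_form Γ d i]
        have h1 : ∑ _i : I, (1 - ε) ≤ ∑ i : I, (isHerm Γ).eigenvalues i / d := by
          refine Finset.sum_le_sum fun i _ => ?_
          rw [le_div_iff₀ hd0]
          have := hI i.2
          simpa using this
        rw [Finset.sum_const, Finset.card_univ, hcard, nsmul_eq_mul] at h1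
        linarith)
    rw [hcard] at hB1 hB2
    have hlog : 0 ≤ Real.log K := Real.log_nonneg hK1
    have e1 : Real.exp (32 / 5 * ε * Real.log K) ≤ (K : ℝ) ^ (8 * ε) := by
      rw [Real.rpow_def_of_pos hK0]
      apply Real.exp_le_exp.2
      nlinarith [mul_nonneg hε hlog]
    have e2 : (K : ℝ) ^ (-(8 * ε)) ≤ Real.exp (-(32 / 5 * ε * Real.log K)) := by
      rw [Real.rpow_def_of_pos hK0]
      apply Real.exp_le_exp.2
      nlinarith [mul_nonneg hε hlog]
    have hBc : (0 : ℝ) < B.card := by exact_mod_cast hB.card_pos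
    refine ⟨B, hB, ?_, ?_⟩
    · refine hB1.trans ?_
      calc 4000 * Real.exp (32 / 5 * ε * Real.log K) * (Fintype.card V / K)
          ≤ 4000 * (K : ℝ) ^ (8 * ε) * (Fintype.card V / K) := by
            apply mul_le_mul_of_nonneg_right _ (by positivity)
            linarith
        _ = _ := by ring
    · rw [expansion_eq Γ d hd hΓ B hB]
      have h2 : Real.exp (-(32 / 5 * ε * Real.log K)) / 200 ≤
          (∑ x ∈ B, ∑ y ∈ B, Pw Γ d x y) / B.card := by
        rw [le_div_iff₀ hBc]; exact hB2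
      linarith
  · refine ⟨univ, Finset.univ_nonempty, ?_, ?_⟩
    · rw [Finset.card_univ]
      have h1 : 1 ≤ 4000 * (K : ℝ) ^ (8 * ε) / K := by
        rw [le_div_iff₀ hK0, one_mul]
        have h3 : (1 : ℝ) ≤ (K : ℝ) ^ (8 * ε) := Real.one_le_rpow hK1 (by linarith)
        rw [not_and_or] at htriv
        rcases htriv with h | h
        · push Not at h
          have h2 : (K : ℝ) ^ (1 : ℝ) ≤ (K : ℝ) ^ (8 * ε) :=
            Real.rpow_le_rpow_of_exponent_le hK1 (by linarith)
          rw [Real.rpow_one] at h2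
          linarith
        · have : K = 1 := by omega
          rw [this]; rw [this] at h3
          push_cast at h3 ⊢
          linarith
      nlinarith
    · have h1 : expansion Γ d (univ : Finset V) = 0 := by
        unfold expansion cut
        simp
      rw [h1]
      have h2 : (K : ℝ) ^ (-(8 * ε)) ≤ 1 := by
        apply Real.rpow_le_one_of_one_le_of_nonpos hK1 (by linarith)
      linarith

end

end Pool.Agent.L7h51.TR
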