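import Pool.Agent.L7h51.TR.Spectral

set_option autoImplicit false
set_option linter.unusedSectionVars false
set_option maxHeartbeats 4000000

/-! Vertex-transitive graphs. -/

namespace Pool.Agent.L7h51.TR

open MeasureTheory ProbabilityTheory Finset Matrix
open scoped RealInnerProductSpace Classical

noncomputable section

variable {V : Type} [Fintype V]

/-- Vertex-transitive graphs. -/
def VertexTransitive (Γ : SimpleGraph V) : Prop := ∀ x y : V, ∃ φ : Γ ≃g Γ, φ x = y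

instance autFinite (Γ : SimpleGraph V) : Finite (Γ ≃g Γ) := by
  have : Function.Injective (fun φ : Γ ≃g Γ => (φ : V → V)) := DFunLike.coe_injective
  exact Finite.of_injective _ this

instance autFintype (Γ : SimpleGraph V) : Fintype (Γ ≃g Γ) := Fintype.ofFinite _

lemma avg (Γ : SimpleGraph V) (hΓ : VertexTransitive Γ) (g : V → ℝ) (x : V) :
    (Fintype.card V : ℝ) * ∑ φ : Γ ≃g Γ, g (φ x) = Fintype.card (Γ ≃g Γ) * ∑ y, g y := by
  have h1 : ∀ x', ∑ φ : Γ ≃g Γ, g (φ x') = ∑ φ : Γ ≃g Γ, g (φ x) := by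
    intro x'
    obtain ⟨ψ, hψ⟩ := hΓ x x'
    refine Fintype.sum_equiv ⟨fun φ => ψ.trans φ, fun φ => ψ.symm.trans φ, ?_, ?_⟩ _ _ ?_
    · intro φ; ext y; simp
    · intro φ; ext y; simp
    · intro φ
      simp [hψ]
  have h2 : ∑ x', ∑ φ : Γ ≃g Γ, g (φ x') = (Fintype.card V : ℝ) * ∑ φ : Γ ≃g Γ, g (φ x) := by
    rw [Finset.sum_congr rfl fun x' _ => h1 x', Finset.sum_const, Finset.card_univ, nsmul_eq_mul]
  rw [← h2, Finset.sum_comm]
  have h3 : ∀ φ : Γ ≃g Γ, ∑ x', g (φ x') = ∑ y, g y := fun φ =>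
    Fintype.sum_equiv φ.toEquiv _ _ fun _ => rfl
  rw [Finset.sum_congr rfl fun φ _ => h3 φ, Finset.sum_const, Finset.card_univ, nsmul_eq_mul]

/-- eigenvalues of a regular graph are at most the degree -/
lemma eig_le (Γ : SimpleGraph V) (d : ℕ) (hd : 1 ≤ d) (hΓ : Γ.IsRegularOfDegree d) (i : V) :
    (isHerm Γ).eigenvalues i ≤ d := by
  have hd0 : (0 : ℝ) < d := by exact_mod_cast hd
  have h1 := ev_form Γ d i
  have h2 : ∑ x, ∑ y, Pw Γ d x y * (ev Γ i x * ev Γ i y) ≤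
      ∑ x, ∑ y, Pw Γ d x y * ((ev Γ i x * ev Γ i x + ev Γ i y * ev Γ i y) / 2) := by
    refine Finset.sum_le_sum fun x _ => Finset.sum_le_sum fun y _ => ?_
    apply mul_le_mul_of_nonneg_left _ (Pw_nonneg Γ d x y)
    nlinarith [sq_nonneg (ev Γ i x - ev Γ i y)]
  have h3 : ∑ x, ∑ y, Pw Γ d x y * ((ev Γ i x * ev Γ i x + ev Γ i y * ev Γ i y) / 2) = 1 := by
    have h4 : ∑ x, ∑ y, Pw Γ d x y * (ev Γ i x * ev Γ i x) = 1 := by
      have : ∀ x, ∑ y, Pw Γ d x y * (ev Γ i x * ev Γ i x) = ev Γ i x * ev Γ i x := by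
        intro x
        rw [← Finset.sum_mul, Pw_row Γ d hd hΓ, one_mul]
      rw [Finset.sum_congr rfl fun x _ => this x, ev_orth]; simp
    have h5 : ∑ x, ∑ y, Pw Γ d x y * (ev Γ i y * ev Γ i y) = 1 := by
      rw [Finset.sum_comm, ← h4]
      refine Finset.sum_congr rfl fun x _ => Finset.sum_congr rfl fun y _ => ?_
      rw [Pw_symm]
    have h6 : ∀ x y, Pw Γ d x y * ((ev Γ i x * ev Γ i x + ev Γ i y * ev Γ i y) / 2) =
        (Pw Γ d x y * (ev Γ i x * ev Γ i x)) / 2 + (Pw Γ d x y * (ev Γ i y * ev Γ i y)) / 2 := by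
      intro x y; ring
    simp_rw [h6, Finset.sum_add_distrib, ← Finset.sum_div]
    rw [h4, h5]; norm_num
  rw [h1, h3, div_le_iff₀ hd0] at h2
  linarith

/-- coefficients of the indicator function of a set in the basis of eigenvectors -/
def co (Γ : SimpleGraph V) (A : Finset V) (i : V) : ℝ := ∑ x ∈ A, ev Γ i x

lemma ev_complete (Γ : SimpleGraph V) (x y : V) :
    ∑ i, ev Γ i x * ev Γ i y = if x = y then 1 else 0 := by
  have h := (isHerm Γ).eigenvectorBasis.sum_inner_mul_inner (EuclideanSpace.single x (1 : ℝ))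
    (EuclideanSpace.single y (1 : ℝ))
  rw [EuclideanSpace.inner_single_left] at h
  have h2 : ∀ i, ⟪EuclideanSpace.single x (1 : ℝ), (isHerm Γ).eigenvectorBasis i⟫ *
      ⟪(isHerm Γ).eigenvectorBasis i, EuclideanSpace.single y (1 : ℝ)⟫ = ev Γ i x * ev Γ i y := by
    intro i
    rw [EuclideanSpace.inner_single_left, EuclideanSpace.inner_single_right]
    simp [ev]
  rw [Finset.sum_congr rfl fun i _ => h2 i] at h
  rw [h]
  simp

lemma parseval (Γ : SimpleGraph V) (A : Finset V) : ∑ i, co Γ A i ^ 2 = A.card := by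
  have h1 : ∀ i, co Γ A i ^ 2 = ∑ x ∈ A, ∑ y ∈ A, ev Γ i x * ev Γ i y := by
    intro i
    unfold co
    rw [pow_two, Finset.sum_mul_sum]
  rw [Finset.sum_congr rfl fun i _ => h1 i, Finset.sum_comm]
  have h2 : ∀ x ∈ A, ∑ i, ∑ y ∈ A, ev Γ i x * ev Γ i y = 1 := by
    intro x hx
    rw [Finset.sum_comm]
    rw [Finset.sum_congr rfl fun y _ => ev_complete Γ x y]
    simp [hx]
  rw [Finset.sum_congr rfl h2]; simp

lemma stay_eq (Γ : SimpleGraph V) (d : ℕ) (A : Finset V) :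
    ∑ i, (isHerm Γ).eigenvalues i / d * co Γ A i ^ 2 = ∑ x ∈ A, ∑ y ∈ A, Pw Γ d x y := by
  have h0 : ∀ i, (isHerm Γ).eigenvalues i / d * co Γ A i ^ 2 =
      ∑ x ∈ A, ∑ z, Pw Γ d x z * (ev Γ i z * co Γ A i) := by
    intro i
    have h1 : ∀ x, ∑ z, Pw Γ d x z * (ev Γ i z * co Γ A i) =
        (isHerm Γ).eigenvalues i / d * (ev Γ i x * co Γ A i) := by
      intro x
      have h2 : ∀ z, Pw Γ d x z * (ev Γ i z * co Γ A i) =
          (co Γ A i / d) * ((if Γ.Adj x z then (1 : ℝ) else 0) * ev Γ i z) := by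
        intro z; unfold Pw; ring
      rw [Finset.sum_congr rfl fun z _ => h2 z, ← Finset.mul_sum, ev_mul]
      ring
    rw [Finset.sum_congr rfl fun x _ => h1 x, ← Finset.mul_sum, ← Finset.sum_mul]
    unfold co
    ring
  rw [Finset.sum_congr rfl fun i _ => h0 i, Finset.sum_comm]
  refine Finset.sum_congr rfl fun x _ => ?_
  rw [Finset.sum_comm]
  have h3 : ∀ z, ∑ i, Pw Γ d x z * (ev Γ i z * co Γ A i) = Pw Γ d x z * (if z ∈ A then 1 else 0) := by
    intro z
    rw [← Finset.mul_sum]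
    congr 1
    unfold co
    simp_rw [Finset.mul_sum]
    rw [Finset.sum_comm, Finset.sum_congr rfl fun y _ => ev_complete Γ z y]
    simp
  rw [Finset.sum_congr rfl fun z _ => h3 z]
  simp

/-- most of the mass of a non-expanding set lies on large eigenvalues -/
lemma mass (Γ : SimpleGraph V) (d : ℕ) (hd : 1 ≤ d) (hΓ : Γ.IsRegularOfDegree d) (η : ℝ)
    (hη : 0 ≤ η) (A : Finset V) (hst : (1 - η) * A.card ≤ ∑ x ∈ A, ∑ y ∈ A, Pw Γ d x y) :
    (A.card : ℝ) / 2 ≤ ∑ i ∈ univ.filter (fun i : V => (1 - 2 * η) * d ≤ (isHerm Γ).eigenvalues i),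
      co Γ A i ^ 2 := by
  have hd0 : (0 : ℝ) < d := by exact_mod_cast hd
  rw [← stay_eq] at hst
  have hp := parseval Γ A
  have h1 : ∑ i, (1 - (isHerm Γ).eigenvalues i / d) * co Γ A i ^ 2 ≤ η * A.card := by
    have : ∑ i, (1 - (isHerm Γ).eigenvalues i / d) * co Γ A i ^ 2 =
        ∑ i, co Γ A i ^ 2 - ∑ i, (isHerm Γ).eigenvalues i / d * co Γ A i ^ 2 := by
      rw [← Finset.sum_sub_distrib]
      exact Finset.sum_congr rfl fun i _ => by ring
    rw [this, hp]
    linarith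
  have h2 : ∀ i, 0 ≤ (1 - (isHerm Γ).eigenvalues i / d) * co Γ A i ^ 2 := by
    intro i
    apply mul_nonneg _ (sq_nonneg _)
    have := eig_le Γ d hd hΓ i
    rw [sub_nonneg, div_le_one hd0]
    exact this
  -- the small eigenvalues
  have h3 : ∑ i ∈ univ.filter (fun i : V => ¬ (1 - 2 * η) * d ≤ (isHerm Γ).eigenvalues i),
      co Γ A i ^ 2 ≤ A.card / 2 := by
    rcases eq_or_lt_of_le hη with h0 | h0
    · have h4 : ∀ i, (1 - (isHerm Γ).eigenvalues i / d) * co Γ A i ^ 2 = 0 := by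
        intro i
        rw [← h0, zero_mul] at h1
        exact (Finset.sum_eq_zero_iff_of_nonneg fun i _ => h2 i).1
          (le_antisymm h1 (Finset.sum_nonneg fun i _ => h2 i)) i (Finset.mem_univ i)
      have h5 : ∑ i ∈ univ.filter (fun i : V => ¬ (1 - 2 * η) * d ≤ (isHerm Γ).eigenvalues i),
          co Γ A i ^ 2 = 0 := by
        refine Finset.sum_eq_zero fun i hi => ?_
        simp only [Finset.mem_filter, Finset.mem_univ, true_and, not_le] at hi
        rw [← h0] at hi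
        rcases mul_eq_zero.1 (h4 i) with h6 | h6
        · exfalso
          have : (isHerm Γ).eigenvalues i / d = 1 := by linarith
          rw [div_eq_one_iff_eq hd0.ne'] at this
          linarith
        · exact h6
      rw [h5]; positivity
    · have h4 : ∑ i ∈ univ.filter (fun i : V => ¬ (1 - 2 * η) * d ≤ (isHerm Γ).eigenvalues i),
          2 * η * co Γ A i ^ 2 ≤ η * A.card := by
        refine le_trans ?_ h1
        refine le_trans ?_ (Finset.sum_le_sum_of_subset_of_nonneg (Finset.filter_subset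
          (fun i : V => ¬ (1 - 2 * η) * d ≤ (isHerm Γ).eigenvalues i) univ) fun i _ _ => h2 i)
        refine Finset.sum_le_sum fun i hi => ?_
        simp only [Finset.mem_filter, Finset.mem_univ, true_and, not_le] at hi
        apply mul_le_mul_of_nonneg_right _ (sq_nonneg _)
        rw [le_sub_iff_add_le, ← le_sub_iff_add_le', div_le_iff₀ hd0]
        linarith
      rw [← Finset.mul_sum] at h4
      have h5 : η * (2 * ∑ i ∈ univ.filter (fun i : V => ¬ (1 - 2 * η) * d ≤ (isHerm Γ).eigenvalues i),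
          co Γ A i ^ 2) ≤ η * A.card := by linarith
      have := le_of_mul_le_mul_left h5 h0
      linarith
  have h4 := Finset.sum_filter_add_sum_filter_not (univ : Finset V)
    (fun i : V => (1 - 2 * η) * d ≤ (isHerm Γ).eigenvalues i) (fun i => co Γ A i ^ 2)
  rw [hp] at h4
  linarith

/-- image of a set under an automorphism -/
def im {Γ : SimpleGraph V} (φ : Γ ≃g Γ) (A : Finset V) : Finset V := A.map φ.toEquiv.toEmbedding

lemma im_card {Γ : SimpleGraph V} (φ : Γ ≃g Γ) (A : Finset V) : (im φ A).card = A.card :=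
  Finset.card_map _

lemma im_sum {Γ : SimpleGraph V} (φ : Γ ≃g Γ) (A : Finset V) (f : V → ℝ) :
    ∑ x ∈ im φ A, f x = ∑ x ∈ A, f (φ x) := by
  unfold im
  rw [Finset.sum_map]
  rfl

lemma im_stay {Γ : SimpleGraph V} (d : ℕ) (φ : Γ ≃g Γ) (A : Finset V) :
    ∑ x ∈ im φ A, ∑ y ∈ im φ A, Pw Γ d x y = ∑ x ∈ A, ∑ y ∈ A, Pw Γ d x y := by
  rw [im_sum]
  refine Finset.sum_congr rfl fun x _ => ?_
  rw [im_sum]
  refine Finset.sum_congr rfl fun y _ => ?_
  unfold Pw
  simp only [φ.map_adj_iff]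

/-- **Many large eigenvalues from a small non-expanding set.** -/
theorem many_eigenvalues (Γ : SimpleGraph V) (d : ℕ) (hd : 1 ≤ d) (hΓ : Γ.IsRegularOfDegree d)
    (hT : VertexTransitive Γ) (η : ℝ) (hη : 0 ≤ η) (A : Finset V) (hA : A.Nonempty)
    (hexp : expansion Γ d A ≤ η) :
    (Fintype.card V : ℝ) ≤ 2 * A.card * eigCount Γ ((1 - 2 * η) * d) := by
  have hA0 : (0 : ℝ) < A.card := by exact_mod_cast hA.card_pos
  have hst : (1 - η) * A.card ≤ ∑ x ∈ A, ∑ y ∈ A, Pw Γ d x y := by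
    rw [expansion_eq Γ d hd hΓ A hA] at hexp
    rw [← le_div_iff₀ hA0]
    linarith
  set I := univ.filter (fun i : V => (1 - 2 * η) * d ≤ (isHerm Γ).eigenvalues i) with hI
  have hN : 0 < Fintype.card (Γ ≃g Γ) := by
    have : Nonempty (Γ ≃g Γ) := ⟨RelIso.refl _⟩
    exact Fintype.card_pos
  have hN0 : (0 : ℝ) < Fintype.card (Γ ≃g Γ) := by exact_mod_cast hN
  obtain ⟨a, ha⟩ := hA
  have hn : 0 < Fintype.card V := Fintype.card_pos_iff.2 ⟨a⟩
  have hn0 : (0 : ℝ) < Fintype.card V := by exact_mod_cast hn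
  -- sum over the automorphisms
  have h1 : (Fintype.card (Γ ≃g Γ) : ℝ) * (A.card / 2) ≤
      ∑ φ : Γ ≃g Γ, ∑ i ∈ I, co Γ (im φ A) i ^ 2 := by
    have : ∀ φ : Γ ≃g Γ, (A.card : ℝ) / 2 ≤ ∑ i ∈ I, co Γ (im φ A) i ^ 2 := by
      intro φ
      have h := mass Γ d hd hΓ η hη (im φ A) (by rw [im_stay, im_card]; exact hst)
      rwa [im_card] at h
    calc (Fintype.card (Γ ≃g Γ) : ℝ) * (A.card / 2) = ∑ _φ : Γ ≃g Γ, (A.card : ℝ) / 2 := by
          rw [Finset.sum_const, Finset.card_univ, nsmul_eq_mul]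
      _ ≤ _ := Finset.sum_le_sum fun φ _ => this φ
  have h2 : ∀ i, (Fintype.card V : ℝ) * ∑ φ : Γ ≃g Γ, co Γ (im φ A) i ^ 2 ≤
      Fintype.card (Γ ≃g Γ) * (A.card : ℝ) ^ 2 := by
    intro i
    have h3 : ∀ φ : Γ ≃g Γ, co Γ (im φ A) i ^ 2 ≤ A.card * ∑ x ∈ A, ev Γ i (φ x) ^ 2 := by
      intro φ
      unfold co
      rw [im_sum]
      exact sq_sum_le_card_mul_sum_sq
    calc (Fintype.card V : ℝ) * ∑ φ : Γ ≃g Γ, co Γ (im φ A) i ^ 2
        ≤ (Fintype.card V : ℝ) * ∑ φ : Γ ≃g Γ, A.card * ∑ x ∈ A, ev Γ i (φ x) ^ 2 :=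
          mul_le_mul_of_nonneg_left (Finset.sum_le_sum fun φ _ => h3 φ) hn0.le
      _ = A.card * ∑ x ∈ A, ((Fintype.card V : ℝ) * ∑ φ : Γ ≃g Γ, ev Γ i (φ x) ^ 2) := by
          rw [← Finset.mul_sum, Finset.sum_comm, ← Finset.mul_sum]
          ring
      _ = A.card * ∑ x ∈ A, (Fintype.card (Γ ≃g Γ) : ℝ) := by
          congr 1
          refine Finset.sum_congr rfl fun x _ => ?_
          rw [avg Γ hT (fun y => ev Γ i y ^ 2) x]
          have := ev_orth Γ i i
          simp only [if_true] at this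
          have h5 : ∑ y, ev Γ i y ^ 2 = 1 := by
            rw [← this]; exact Finset.sum_congr rfl fun y _ => by ring
          rw [h5, mul_one]
      _ = _ := by rw [Finset.sum_const, nsmul_eq_mul]; ring
  have h3 : (Fintype.card V : ℝ) * ((Fintype.card (Γ ≃g Γ) : ℝ) * (A.card / 2)) ≤
      I.card * (Fintype.card (Γ ≃g Γ) * (A.card : ℝ) ^ 2) := by
    calc (Fintype.card V : ℝ) * ((Fintype.card (Γ ≃g Γ) : ℝ) * (A.card / 2))
        ≤ (Fintype.card V : ℝ) * ∑ φ : Γ ≃g Γ, ∑ i ∈ I, co Γ (im φ A) i ^ 2 :=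
          mul_le_mul_of_nonneg_left h1 hn0.le
      _ = ∑ i ∈ I, ((Fintype.card V : ℝ) * ∑ φ : Γ ≃g Γ, co Γ (im φ A) i ^ 2) := by
          rw [Finset.sum_comm, Finset.mul_sum]
      _ ≤ ∑ _i ∈ I, (Fintype.card (Γ ≃g Γ) * (A.card : ℝ) ^ 2) := Finset.sum_le_sum fun i _ => h2 i
      _ = _ := by rw [Finset.sum_const, nsmul_eq_mul]
  have h4 : (Fintype.card (Γ ≃g Γ) : ℝ) * A.card / 2 * Fintype.card V ≤
      (Fintype.card (Γ ≃g Γ) : ℝ) * A.card / 2 * (2 * A.card * I.card) := by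
    nlinarith
  have h5 := le_of_mul_le_mul_left h4 (by positivity)
  exact h5

end

end Pool.Agent.L7h51.TR
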